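import Mathlib

set_option autoImplicit false

namespace Pool.Agent.Work.MP_2eb999_an

open Finset Filter

/-- A nonnegative sequence with `∑ (n+1) α_n² ≤ 1/16` but `∑ α_n = ∞`. -/
lemma exists_alpha : ∃ α : ℕ → ℝ, (∀ n, 0 ≤ α n) ∧
    (∀ N, ∑ n ∈ range N, ((n : ℝ) + 1) * α n ^ 2 ≤ 1 / 16) ∧
    ∀ C : ℝ, ∃ N, C < ∑ n ∈ range N, α n := by
  let H : ℕ → ℝ := fun N => ∑ i ∈ range N, (1 / (i + 1 : ℝ))
  have hHs : ∀ N, H (N + 1) = H N + 1 / (N + 1 : ℝ) := fun N => by
    simp only [H, sum_range_succ]
  have hHmono : Monotone H := monotone_nat_of_le_succ (fun n => by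
    rw [hHs]; have : (0 : ℝ) ≤ 1 / (n + 1 : ℝ) := by positivity
    linarith)
  have hH1 : ∀ N, 1 ≤ H (N + 1) := fun N => by
    have h1 : H 1 ≤ H (N + 1) := hHmono (by omega)
    have h2 : H 1 = 1 := by simp [H]
    linarith
  have hHtop : Tendsto H atTop atTop := Real.tendsto_sum_range_one_div_nat_succ_atTop
  refine ⟨fun n => 1 / (8 * (n + 1) * H (n + 1)), ?_, ?_, ?_⟩
  · intro n
    have := hH1 n
    positivity
  · have key : ∀ N, ∑ n ∈ range (N + 1), ((n : ℝ) + 1) * (1 / (8 * (n + 1) * H (n + 1))) ^ 2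
        ≤ 1 / 64 * (2 - 1 / H (N + 1)) := by
      intro N
      induction N with
      | zero =>
        have h2 : H 1 = 1 := by simp [H]
        simp [h2]
        norm_num
      | succ N ih =>
        rw [sum_range_succ]
        have h1 := hH1 N
        have h2 := hH1 (N + 1)
        have h3 := hHs (N + 1)
        have h0 : (0 : ℝ) < (N : ℝ) + 1 + 1 := by positivity
        have h4 : (((N + 1 : ℕ) : ℝ) + 1) * (1 / (8 * (((N + 1 : ℕ) : ℝ) + 1) * H (N + 1 + 1))) ^ 2
            ≤ 1 / 64 * (1 / H (N + 1) - 1 / H (N + 1 + 1)) := by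
          push_cast
          have e1 : ((N : ℝ) + 1 + 1) * (1 / (8 * ((N : ℝ) + 1 + 1) * H (N + 1 + 1))) ^ 2
              = 1 / 64 * (1 / ((N : ℝ) + 1 + 1) / (H (N + 1 + 1) * H (N + 1 + 1))) := by
            field_simp
            norm_num
          have e2 : 1 / H (N + 1) - 1 / H (N + 1 + 1)
              = 1 / ((N : ℝ) + 1 + 1) / (H (N + 1) * H (N + 1 + 1)) := by
            have : H (N + 1 + 1) - H (N + 1) = 1 / ((N : ℝ) + 1 + 1) := by
              rw [h3]; push_cast; ring
            rw [← this]
            field_simp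
          rw [e1, e2]
          apply mul_le_mul_of_nonneg_left _ (by norm_num)
          apply div_le_div_of_nonneg_left (by positivity) (by positivity)
          apply mul_le_mul_of_nonneg_right (hHmono (by omega)) (by linarith)
        linarith
    intro N
    rcases N with _ | N
    · simp
    · have h1 := hH1 N
      have : 0 ≤ 1 / H (N + 1) := by positivity
      linarith [key N]
  · -- divergence
    have hdiv : ∀ J : ℕ, ∃ N, (J : ℝ) / 16 ≤ ∑ n ∈ range N, (1 / (8 * ((n : ℝ) + 1) * H (n + 1))) := by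
      intro J
      induction J with
      | zero => exact ⟨0, by simp⟩
      | succ J ih =>
        obtain ⟨p, hp⟩ := ih
        obtain ⟨q, hq, hpq⟩ := ((hHtop.eventually (eventually_ge_atTop (2 * H p + 1))).and
          (eventually_ge_atTop p)).exists
        refine ⟨q, ?_⟩
        have hHp : 0 ≤ H p := sum_nonneg (fun i _ => by positivity)
        have hHq : 0 < H q := by linarith
        have h1 : ∀ n ∈ Ico p q, (H (n + 1) - H n) / (8 * H q)
            ≤ 1 / (8 * ((n : ℝ) + 1) * H (n + 1)) := by
          intro n hn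
          have hn' := (mem_Ico.mp hn).2
          rw [hHs]
          have h2 : H (n + 1) ≤ H q := hHmono (by omega)
          have h3 := hH1 n
          rw [add_sub_cancel_left, div_div]
          rw [← hHs]
          apply div_le_div_of_nonneg_left (by norm_num) (by positivity)
          nlinarith
        have h2 : ∑ n ∈ Ico p q, (H (n + 1) - H n) / (8 * H q) = (H q - H p) / (8 * H q) := by
          rw [← sum_div, sum_Ico_sub (f := H) hpq]
        have h3 : (1 : ℝ) / 16 ≤ (H q - H p) / (8 * H q) := by
          rw [div_le_div_iff₀ (by norm_num) (by positivity)]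
          linarith
        have h4 : ∑ n ∈ range q, (1 / (8 * ((n : ℝ) + 1) * H (n + 1)))
            = ∑ n ∈ range p, (1 / (8 * ((n : ℝ) + 1) * H (n + 1)))
              + ∑ n ∈ Ico p q, (1 / (8 * ((n : ℝ) + 1) * H (n + 1))) :=
          (sum_range_add_sum_Ico _ hpq).symm
        rw [h4]
        have h5 := sum_le_sum h1
        push_cast
        linarith
    intro C
    obtain ⟨J, hJ⟩ := exists_nat_gt (16 * C)
    obtain ⟨N, hN⟩ := hdiv J
    refine ⟨N, ?_⟩
    have : C < (J : ℝ) / 16 := by linarith
    linarith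

end Pool.Agent.Work.MP_2eb999_an
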