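import Mathlib

set_option autoImplicit false

namespace Pool.Agent.Work.MP_2eb999_an

open Finset Filter

/-- Left end points of the blocks: `bs 0 = 0`, `bs (j+1) = bs j + 4^(j+1)`. -/
def bs : ℕ → ℕ
  | 0 => 0
  | j + 1 => bs j + 4 ^ (j + 1)

/-- The `j`-th block, an interval of `4^(j+1)` integers. -/
def sig (j : ℕ) : Finset ℕ := Finset.Ico (bs j) (bs (j + 1))

lemma bs_succ (j : ℕ) : bs (j + 1) = bs j + 4 ^ (j + 1) := rfl

lemma bs_lt (j : ℕ) : bs j < bs (j + 1) := by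
  rw [bs_succ]; exact Nat.lt_add_of_pos_right (by positivity)

lemma bs_strictMono : StrictMono bs := strictMono_nat_of_lt_succ bs_lt

lemma card_sig (j : ℕ) : (sig j).card = 4 ^ (j + 1) := by
  simp [sig, bs_succ]

lemma exists_blk (n : ℕ) : ∃ j, n ∈ sig j := by
  have h : ∃ j, n < bs (j + 1) := by
    refine ⟨n, ?_⟩
    have := bs_strictMono.le_apply (x := n + 1)
    omega
  classical
  refine ⟨Nat.find h, ?_⟩
  have h1 := Nat.find_spec h
  rw [sig, mem_Ico]
  refine ⟨?_, h1⟩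
  by_contra hlt
  push Not at hlt
  rcases Nat.eq_zero_or_pos (Nat.find h) with h0 | h0
  · rw [h0] at hlt; simp [bs] at hlt
  · have := Nat.find_min h (m := Nat.find h - 1) (by omega)
    rw [Nat.sub_add_cancel h0] at this
    omega

lemma sig_unique {n j j' : ℕ} (h : n ∈ sig j) (h' : n ∈ sig j') : j = j' := by
  rw [sig, mem_Ico] at h h'
  by_contra hne
  rcases Nat.lt_or_gt_of_ne hne with hlt | hlt
  · have : bs (j + 1) ≤ bs j' := bs_strictMono.monotone hlt
    omega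
  · have : bs (j' + 1) ≤ bs j := bs_strictMono.monotone hlt
    omega

lemma sig_disjoint {j j' : ℕ} (h : j ≠ j') : Disjoint (sig j) (sig j') := by
  rw [Finset.disjoint_left]
  intro n h1 h2
  exact h (sig_unique h1 h2)

section
variable {𝕜 : Type*} [RCLike 𝕜]

/-- Signed block averages. -/
noncomputable def bv (a : ℕ → 𝕜) (j : ℕ) : 𝕜 :=
  ((2 : 𝕜) ^ (j + 1))⁻¹ * ∑ n ∈ sig j, (-1) ^ n * a n

lemma bv_add (a b : ℕ → 𝕜) (j : ℕ) : bv (a + b) j = bv a j + bv b j := by
  simp only [bv, Pi.add_apply, mul_add, sum_add_distrib]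

lemma bv_smul (c : 𝕜) (a : ℕ → 𝕜) (j : ℕ) : bv (c • a) j = c * bv a j := by
  simp only [bv, Pi.smul_apply, smul_eq_mul]
  rw [mul_left_comm, mul_sum, mul_sum, mul_sum]
  congr 1
  ext
  ring

lemma norm_two_pow_inv (j : ℕ) : ‖((2 : 𝕜) ^ (j + 1))⁻¹‖ = ((2 : ℝ) ^ (j + 1))⁻¹ := by
  rw [norm_inv, norm_pow, RCLike.norm_ofNat]

lemma norm_bv_le (a : ℕ → 𝕜) (j : ℕ) {t : ℝ} (ht : ∀ n, ‖a n‖ ≤ t) :
    ‖bv a j‖ ≤ 2 ^ (j + 1) * t := by
  unfold bv
  rw [norm_mul, norm_two_pow_inv]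
  have h1 : ‖∑ n ∈ sig j, (-1) ^ n * a n‖ ≤ 4 ^ (j + 1) * t := by
    calc ‖∑ n ∈ sig j, (-1) ^ n * a n‖ ≤ ∑ n ∈ sig j, ‖(-1) ^ n * a n‖ := norm_sum_le _ _
      _ ≤ ∑ n ∈ sig j, t := by
          apply sum_le_sum
          intro n _
          rw [norm_mul, norm_pow, norm_neg, norm_one, one_pow, one_mul]
          exact ht n
      _ = _ := by rw [sum_const, card_sig]; simp
  calc ((2 : ℝ) ^ (j + 1))⁻¹ * ‖∑ n ∈ sig j, (-1) ^ n * a n‖
      ≤ ((2 : ℝ) ^ (j + 1))⁻¹ * (4 ^ (j + 1) * t) := by gcongr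
    _ = 2 ^ (j + 1) * t := by
        rw [show (4 : ℝ) = 2 * 2 by norm_num, mul_pow]
        field_simp

lemma norm_bv_sq_le (a : ℕ → 𝕜) (j : ℕ) : ‖bv a j‖ ^ 2 ≤ ∑ n ∈ sig j, ‖a n‖ ^ 2 := by
  unfold bv
  rw [norm_mul, norm_two_pow_inv, mul_pow]
  have h1 : ‖∑ n ∈ sig j, (-1) ^ n * a n‖ ≤ ∑ n ∈ sig j, ‖a n‖ := by
    calc ‖∑ n ∈ sig j, (-1) ^ n * a n‖ ≤ ∑ n ∈ sig j, ‖(-1) ^ n * a n‖ := norm_sum_le _ _
      _ = _ := by
          apply sum_congr rfl
          intro n _
          rw [norm_mul, norm_pow, norm_neg, norm_one, one_pow, one_mul]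
  have h2 : (∑ n ∈ sig j, ‖a n‖) ^ 2 ≤ 4 ^ (j + 1) * ∑ n ∈ sig j, ‖a n‖ ^ 2 := by
    have := sq_sum_le_card_mul_sum_sq (s := sig j) (f := fun n => ‖a n‖)
    rw [card_sig] at this
    push_cast at this
    exact this
  calc (((2 : ℝ) ^ (j + 1))⁻¹) ^ 2 * ‖∑ n ∈ sig j, (-1) ^ n * a n‖ ^ 2
      ≤ (((2 : ℝ) ^ (j + 1))⁻¹) ^ 2 * (4 ^ (j + 1) * ∑ n ∈ sig j, ‖a n‖ ^ 2) := by
        gcongr
        exact (pow_le_pow_left₀ (norm_nonneg _) h1 2).trans h2
    _ = ∑ n ∈ sig j, ‖a n‖ ^ 2 := by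
        rw [show (4 : ℝ) = 2 * 2 by norm_num, mul_pow]
        field_simp

lemma bv_single {n j : ℕ} (hn : n ∈ sig j) (z : 𝕜) :
    bv (Pi.single n z) = Pi.single j (((2 : 𝕜) ^ (j + 1))⁻¹ * ((-1) ^ n * z)) := by
  funext i
  by_cases hij : i = j
  · subst hij
    rw [Pi.single_eq_same, bv]
    congr 1
    rw [sum_eq_single n]
    · simp
    · intro b _ hb
      rw [Pi.single_eq_of_ne hb, mul_zero]
    · intro h; exact absurd hn h
  · rw [Pi.single_eq_of_ne hij, bv]
    rw [sum_eq_zero, mul_zero]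
    intro b hb
    rw [Pi.single_eq_of_ne, mul_zero]
    rintro rfl
    exact hij (sig_unique hb hn)

/-- Lower triangular Toeplitz operator with symbol sequence `α`. -/
noncomputable def Lc (α : ℕ → ℝ) (c : ℕ → 𝕜) (i : ℕ) : 𝕜 :=
  ∑ j ∈ range (i + 1), (α (i - j) : 𝕜) * c j

lemma Lc_add (α : ℕ → ℝ) (c d : ℕ → 𝕜) (i : ℕ) : Lc α (c + d) i = Lc α c i + Lc α d i := by
  simp only [Lc, Pi.add_apply, mul_add, sum_add_distrib]

lemma Lc_smul (α : ℕ → ℝ) (z : 𝕜) (c : ℕ → 𝕜) (i : ℕ) : Lc α (z • c) i = z * Lc α c i := by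
  simp only [Lc, Pi.smul_apply, smul_eq_mul, mul_sum]
  congr 1
  ext
  ring

/-- The `ℓ₂` norm of the first `I` coordinates of `Lc α c`. -/
noncomputable def Ln (α : ℕ → ℝ) (I : ℕ) (c : ℕ → 𝕜) : ℝ :=
  ‖(WithLp.toLp 2 (fun i : Fin I => Lc α c i) : EuclideanSpace 𝕜 (Fin I))‖

lemma Ln_eq (α : ℕ → ℝ) (I : ℕ) (c : ℕ → 𝕜) :
    Ln α I c = √(∑ i ∈ range I, ‖Lc α c i‖ ^ 2) := by
  rw [Ln, EuclideanSpace.norm_eq]
  congr 1
  rw [← Fin.sum_univ_eq_sum_range (fun i => ‖Lc α c i‖ ^ 2) I]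

lemma Ln_sq (α : ℕ → ℝ) (I : ℕ) (c : ℕ → 𝕜) :
    Ln α I c ^ 2 = ∑ i ∈ range I, ‖Lc α c i‖ ^ 2 := by
  rw [Ln_eq, Real.sq_sqrt (sum_nonneg (fun _ _ => by positivity))]

lemma Ln_nonneg (α : ℕ → ℝ) (I : ℕ) (c : ℕ → 𝕜) : 0 ≤ Ln α I c := norm_nonneg _

lemma Ln_add_le (α : ℕ → ℝ) (I : ℕ) (c d : ℕ → 𝕜) : Ln α I (c + d) ≤ Ln α I c + Ln α I d := by
  unfold Ln
  refine le_trans (le_of_eq ?_) (norm_add_le _ _)
  congr 1
  ext i
  simp [Lc_add]

lemma Ln_smul (α : ℕ → ℝ) (I : ℕ) (z : 𝕜) (c : ℕ → 𝕜) : Ln α I (z • c) = ‖z‖ * Ln α I c := by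
  unfold Ln
  rw [← norm_smul]
  congr 1
  ext i
  simp [Lc_smul]

lemma Ln_sum_le (α : ℕ → ℝ) (I : ℕ) {ι : Type*} (s : Finset ι) (c : ι → ℕ → 𝕜) :
    Ln α I (∑ k ∈ s, c k) ≤ ∑ k ∈ s, Ln α I (c k) := by
  classical
  induction s using Finset.induction_on with
  | empty =>
    simp only [sum_empty]
    have : Ln α I (0 : ℕ → 𝕜) = 0 := by
      have := Ln_smul α I (0 : 𝕜) (0 : ℕ → 𝕜)
      simpa using this
    rw [this]
  | insert k s hk ih =>
    rw [sum_insert hk, sum_insert hk]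
    exact (Ln_add_le _ _ _ _).trans (by linarith)

variable {α : ℕ → ℝ} (hα : ∀ N, ∑ n ∈ range N, ((n : ℝ) + 1) * α n ^ 2 ≤ 1 / 16)
include hα

lemma alpha_sq_sum (N : ℕ) : ∑ n ∈ range N, α n ^ 2 ≤ 1 / 16 := by
  refine le_trans (sum_le_sum ?_) (hα N)
  intro n _
  nlinarith [sq_nonneg (α n), (Nat.cast_nonneg n : (0 : ℝ) ≤ n)]

lemma Ln_single_le (I j : ℕ) (z : 𝕜) : Ln α I (Pi.single j z) ≤ 1 / 4 * ‖z‖ := by
  have h1 : Ln α I (Pi.single j z) ^ 2 ≤ (1 / 4 * ‖z‖) ^ 2 := by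
    rw [Ln_sq]
    have h2 : ∀ i, ‖Lc α (Pi.single j z) i‖ ^ 2 = if j ≤ i then α (i - j) ^ 2 * ‖z‖ ^ 2 else 0 := by
      intro i
      split_ifs with hji
      · have : Lc α (Pi.single j z) i = (α (i - j) : 𝕜) * z := by
          unfold Lc
          rw [sum_eq_single j]
          · simp
          · intro b _ hb; rw [Pi.single_eq_of_ne hb, mul_zero]
          · intro h; exact absurd (mem_range.mpr (by omega)) h
        rw [this, norm_mul, mul_pow, RCLike.norm_ofReal, sq_abs]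
      · have : Lc α (Pi.single j z) i = 0 := by
          unfold Lc
          apply sum_eq_zero
          intro b hb
          rw [Pi.single_eq_of_ne, mul_zero]
          have := mem_range.mp hb
          omega
        rw [this]; simp
    simp_rw [h2]
    rw [← sum_filter]
    have h3 : ∑ i ∈ (range I).filter (fun i => j ≤ i), α (i - j) ^ 2 * ‖z‖ ^ 2
        ≤ ∑ n ∈ range I, α n ^ 2 * ‖z‖ ^ 2 := by
      have h4 : ∑ i ∈ (range I).filter (fun i => j ≤ i), α (i - j) ^ 2 * ‖z‖ ^ 2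
          = ∑ n ∈ ((range I).filter (fun i => j ≤ i)).image (fun i => i - j), α n ^ 2 * ‖z‖ ^ 2 := by
        rw [sum_image]
        intro x hx y hy hxy
        simp only [coe_filter, mem_range] at hx hy
        have hx' : x < I ∧ j ≤ x := hx
        have hy' : y < I ∧ j ≤ y := hy
        have hxy' : x - j = y - j := hxy
        omega
      rw [h4]
      apply sum_le_sum_of_subset_of_nonneg
      · intro n hn
        obtain ⟨i, hi, rfl⟩ := mem_image.mp hn
        have := mem_range.mp (mem_filter.mp hi).1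
        exact mem_range.mpr (by omega)
      · intros; positivity
    refine h3.trans ?_
    rw [← sum_mul]
    have := alpha_sq_sum hα I
    nlinarith [sq_nonneg ‖z‖]
  exact le_of_sq_le_sq h1 (by positivity)

/-- Tail estimate: cutting off the first `k` coordinates. -/
lemma Ln_tail_le (I k : ℕ) (c : ℕ → 𝕜) {B : ℝ} (hB0 : 0 ≤ B)
    (hB : ∑ j ∈ range k, ‖c j‖ ^ 2 ≤ B ^ 2) :
    Ln α I (fun j => if j < k then 0 else c j) ≤ Ln α I c + 1 / 4 * B := by
  -- corner vector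
  let corner : EuclideanSpace 𝕜 (Fin I) := WithLp.toLp 2 (fun i : Fin I =>
    if (i : ℕ) < k then 0 else ∑ j ∈ range k, (α (i - j) : 𝕜) * c j)
  let proj : EuclideanSpace 𝕜 (Fin I) := WithLp.toLp 2 (fun i : Fin I =>
    if (i : ℕ) < k then 0 else Lc α c i)
  have hsplit : (WithLp.toLp 2 (fun i : Fin I => Lc α (fun j => if j < k then 0 else c j) i) :
      EuclideanSpace 𝕜 (Fin I)) = proj - corner := by
    ext i
    simp only [proj, corner, PiLp.sub_apply]
    by_cases hik : (i : ℕ) < k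
    · simp only [if_pos hik, sub_zero]
      unfold Lc
      apply sum_eq_zero
      intro j hj
      have := mem_range.mp hj
      simp only [if_pos (show j < k by omega), mul_zero]
    · simp only [if_neg hik]
      unfold Lc
      rw [eq_sub_iff_add_eq]
      have h1 : range k ⊆ range ((i : ℕ) + 1) := range_subset_range.mpr (by omega)
      rw [← sum_sdiff h1, ← sum_sdiff (f := fun j => (α (i - j) : 𝕜) * c j) h1]
      congr 1
      have h2 : ∑ j ∈ range k, (α (i - j) : 𝕜) * (if j < k then 0 else c j) = 0 := by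
        apply sum_eq_zero
        intro j hj
        rw [if_pos (mem_range.mp hj), mul_zero]
      rw [h2, add_zero]
      apply sum_congr rfl
      intro j hj
      have := (mem_sdiff.mp hj).2
      rw [mem_range] at this
      simp only [if_neg this]
  have hproj : ‖proj‖ ≤ Ln α I c := by
    rw [Ln, EuclideanSpace.norm_eq, EuclideanSpace.norm_eq]
    apply Real.sqrt_le_sqrt
    apply sum_le_sum
    intro i _
    simp only [proj]
    split_ifs
    · simp
    · exact le_rfl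
  have hcorner : ‖corner‖ ≤ 1 / 4 * B := by
    have h1 : ‖corner‖ ^ 2 ≤ (1 / 4 * B) ^ 2 := by
      rw [EuclideanSpace.norm_eq, Real.sq_sqrt (sum_nonneg (fun _ _ => by positivity))]
      have h2 : ∀ i : Fin I, ‖corner i‖ ^ 2
          ≤ (if (i : ℕ) < k then 0 else ∑ j ∈ range k, α (i - j) ^ 2) * B ^ 2 := by
        intro i
        simp only [corner]
        split_ifs with hik
        · simp
        · calc ‖∑ j ∈ range k, (α (i - j) : 𝕜) * c j‖ ^ 2
              ≤ (∑ j ∈ range k, |α (i - j)| * ‖c j‖) ^ 2 := by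
                apply pow_le_pow_left₀ (norm_nonneg _)
                refine (norm_sum_le _ _).trans (le_of_eq ?_)
                apply sum_congr rfl
                intro j _
                rw [norm_mul, RCLike.norm_ofReal]
            _ ≤ (∑ j ∈ range k, |α (i - j)| ^ 2) * ∑ j ∈ range k, ‖c j‖ ^ 2 :=
                sum_mul_sq_le_sq_mul_sq _ _ _
            _ ≤ (∑ j ∈ range k, α (i - j) ^ 2) * B ^ 2 := by
                simp only [sq_abs]
                exact mul_le_mul_of_nonneg_left hB (sum_nonneg (fun _ _ => by positivity))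
      refine (sum_le_sum (fun i _ => h2 i)).trans ?_
      rw [← sum_mul]
      have h3 : ∑ i : Fin I, (if (i : ℕ) < k then 0 else ∑ j ∈ range k, α (i - j) ^ 2) ≤ 1 / 16 := by
        rw [Fin.sum_univ_eq_sum_range
          (fun i => if i < k then (0 : ℝ) else ∑ j ∈ range k, α (i - j) ^ 2) I]
        have h4 : ∀ i ∈ range I, (if i < k then (0 : ℝ) else ∑ j ∈ range k, α (i - j) ^ 2)
            = ∑ j ∈ (range k).filter (fun _ => k ≤ i), α (i - j) ^ 2 := by
          intro i _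
          split_ifs with hik
          · rw [filter_false_of_mem (fun _ _ => by omega)]; simp
          · rw [filter_true_of_mem (fun _ _ => by omega)]
        rw [sum_congr rfl h4, sum_sigma']
        -- injection (i,j) ↦ (i-j, i-k)
        let S := (range I).sigma (fun i => (range k).filter (fun _ => k ≤ i))
        let T := (range I).sigma (fun n => range n)
        have hinj : ∀ x ∈ S, ∀ y ∈ S, (⟨x.1 - x.2, x.1 - k⟩ : (_ : ℕ) × ℕ) = ⟨y.1 - y.2, y.1 - k⟩ →
            x = y := by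
          rintro ⟨x1, x2⟩ hx ⟨y1, y2⟩ hy hxy
          simp only [S, mem_sigma, mem_range, mem_filter] at hx hy
          simp only [Sigma.mk.injEq, heq_eq_eq] at hxy
          have e1 : x1 = y1 := by omega
          have e2 : x2 = y2 := by omega
          rw [e1, e2]
        have h5 : ∑ x ∈ S, α (x.1 - x.2) ^ 2
            = ∑ y ∈ S.image (fun x => (⟨x.1 - x.2, x.1 - k⟩ : (_ : ℕ) × ℕ)), α y.1 ^ 2 := by
          rw [sum_image]
          intro x hx y hy hxy
          exact hinj x hx y hy hxy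
        change ∑ x ∈ S, α (x.1 - x.2) ^ 2 ≤ 1 / 16
        rw [h5]
        calc ∑ y ∈ S.image (fun x => (⟨x.1 - x.2, x.1 - k⟩ : (_ : ℕ) × ℕ)), α y.1 ^ 2
            ≤ ∑ y ∈ T, α y.1 ^ 2 := by
              apply sum_le_sum_of_subset_of_nonneg
              · intro y hy
                obtain ⟨⟨x1, x2⟩, hx, rfl⟩ := mem_image.mp hy
                simp only [S, mem_sigma, mem_range, mem_filter] at hx
                simp only [T, mem_sigma, mem_range]
                omega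
              · intros; positivity
          _ = ∑ n ∈ range I, (n : ℝ) * α n ^ 2 := by
              rw [sum_sigma]
              apply sum_congr rfl
              intro n _
              simp
          _ ≤ ∑ n ∈ range I, ((n : ℝ) + 1) * α n ^ 2 := by
              apply sum_le_sum
              intro n _
              nlinarith [sq_nonneg (α n)]
          _ ≤ 1 / 16 := hα I
      nlinarith [sq_nonneg B]
    exact le_of_sq_le_sq h1 (by positivity)
  unfold Ln at hproj ⊢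
  rw [hsplit]
  calc ‖proj - corner‖ ≤ ‖proj‖ + ‖corner‖ := norm_sub_le _ _
    _ ≤ _ := by linarith

end

end Pool.Agent.Work.MP_2eb999_an
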