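import Pool.Agent.Work.MP_2eb999_an.Functional

set_option autoImplicit false

namespace Pool.Agent.Work.MP_2eb999_an

open Finset Filter

section
variable {𝕜 : Type*} [RCLike 𝕜]

/-- `b` is a greedy rearrangement of `a`. -/
def GreedyRearr (a b : ℕ → 𝕜) : Prop :=
  ∃ π : Equiv.Perm ℕ, (∀ n, ‖b (π n)‖ = ‖a n‖) ∧
    ∀ k, 0 < ‖a k‖ → ‖a k‖ < ⨆ n, ‖a n‖ → π k = k ∧ b k = a k

lemma GreedyRearr.iSup_eq {a b : ℕ → 𝕜} (π : Equiv.Perm ℕ) (h : ∀ n, ‖b (π n)‖ = ‖a n‖) :
    ⨆ n, ‖b n‖ = ⨆ n, ‖a n‖ := by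
  rw [← π.iSup_comp]
  simp_rw [h]

lemma GreedyRearr.symm {a b : ℕ → 𝕜} (h : GreedyRearr a b) : GreedyRearr b a := by
  obtain ⟨π, h1, h2⟩ := h
  refine ⟨π.symm, fun n => ?_, fun k hk1 hk2 => ?_⟩
  · have := h1 (π.symm n)
    rw [Equiv.apply_symm_apply] at this
    exact this.symm
  · have e := h1 (π.symm k)
    rw [Equiv.apply_symm_apply] at e
    rw [GreedyRearr.iSup_eq π h1] at hk2
    rw [e] at hk1 hk2
    obtain ⟨h3, h4⟩ := h2 _ hk1 hk2
    rw [Equiv.apply_symm_apply] at h3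
    rw [← h3] at h4
    exact ⟨h3.symm, h4.symm⟩

/-- Truncation to the coordinates `< N`. -/
def trunc (N : ℕ) (a : ℕ → 𝕜) (n : ℕ) : 𝕜 := if n < N then a n else 0

variable {α : ℕ → ℝ} (hα : ∀ N, ∑ n ∈ range N, ((n : ℝ) + 1) * α n ^ 2 ≤ 1 / 16)
include hα

lemma Fv_le_of_greedy {a b : ℕ → 𝕜} (ha : Tendsto (fun n => ‖a n‖) atTop (nhds 0))
    (h : GreedyRearr a b) (A : Finset ℕ) (I : ℕ) : ∃ A', Fv α A I a ≤ Fv α A' I b := by
  classical
  obtain ⟨π, h1, h2⟩ := h
  have hbdd : BddAbove (Set.range fun n => ‖a n‖) := ha.bddAbove_range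
  set t := ⨆ n, ‖a n‖ with ht
  have hle : ∀ n, ‖a n‖ ≤ t := fun n => le_ciSup hbdd n
  by_cases ht0 : t ≤ 0
  · have ha0 : a = 0 := by
      funext n
      have := (hle n).trans ht0
      exact norm_le_zero_iff.mp this
    refine ⟨∅, ?_⟩
    have : Fv α A I a = 0 := by
      have := Fv_smul α A I (0 : 𝕜) a
      rw [ha0] at this ⊢
      simpa using this
    rw [this]; exact Fv_nonneg _ _ _ _
  push Not at ht0
  have hfin : {n : ℕ | ‖a n‖ = t}.Finite := by
    have h3 := (ha.eventually (gt_mem_nhds ht0))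
    rw [eventually_atTop] at h3
    obtain ⟨N, hN⟩ := h3
    apply (Set.finite_lt_nat N).subset
    intro n hn
    by_contra hlt
    have hn' : ‖a n‖ = t := hn
    have := hN n (not_lt.mp hlt)
    linarith
  set A0 := hfin.toFinset with hA0
  have hA0mem : ∀ n, n ∈ A0 ↔ ‖a n‖ = t := fun n => by
    rw [hA0, Set.Finite.mem_toFinset]; rfl
  set A' := A ∪ A0 with hA'
  have hstep : Fv α A I a ≤ Fv α A' I a :=
    Fv_union hα A A0 I a hle (fun n hn => (hA0mem n).1 hn)
  refine ⟨A'.map π.toEmbedding, hstep.trans (le_of_eq ?_)⟩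
  -- equality of the values
  have hmid : ∀ n, n ∉ A' → a n ≠ 0 → π n = n ∧ b n = a n := by
    intro n hn hne
    apply h2 n (norm_pos_iff.mpr hne)
    refine lt_of_le_of_ne (hle n) (fun he => hn ?_)
    exact mem_union_right _ ((hA0mem n).2 he)
  have hoff : off (A'.map π.toEmbedding) b = off A' a := by
    funext n
    unfold off
    have hmem : ∀ m, m ∈ A'.map π.toEmbedding ↔ π.symm m ∈ A' := by
      intro m
      rw [Finset.mem_map]
      constructor
      · rintro ⟨x, hx, rfl⟩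
        simpa using hx
      · intro hm
        exact ⟨_, hm, by simp⟩
    by_cases hn : n ∈ A'.map π.toEmbedding
    · rw [if_pos hn]
      by_cases hnA : n ∈ A'
      · rw [if_pos hnA]
      · rw [if_neg hnA]
        by_contra hne
        obtain ⟨h3, -⟩ := hmid n hnA (fun h => hne h.symm)
        have h4 := (hmem n).1 hn
        have h5 : π.symm n = n := by
          rw [Equiv.symm_apply_eq]; exact h3.symm
        rw [h5] at h4
        exact hnA h4
    · rw [if_neg hn]
      have hk : π.symm n ∉ A' := fun h => hn ((hmem n).2 h)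
      by_cases hak : a (π.symm n) = 0
      · have hbn : b n = 0 := by
          have := h1 (π.symm n)
          rw [Equiv.apply_symm_apply, hak, norm_zero] at this
          exact norm_eq_zero.mp this
        rw [hbn]
        by_cases hnA : n ∈ A'
        · rw [if_pos hnA]
        · rw [if_neg hnA]
          by_contra hne
          obtain ⟨h3, -⟩ := hmid n hnA (fun h => hne h.symm)
          have h5 : π.symm n = n := by
            rw [Equiv.symm_apply_eq]; exact h3.symm
          rw [h5] at hak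
          exact hne hak.symm
      · obtain ⟨h3, h4⟩ := hmid _ hk hak
        rw [Equiv.apply_symm_apply] at h3
        rw [← h3] at h4 hk
        rw [if_neg hk, h4]
  unfold Fv
  rw [hoff, card_map, sum_map]
  congr 2
  apply sum_congr rfl
  intro n _
  exact (h1 n).symm

/-- Effect of truncation on `Ln`. -/
lemma Ln_trunc_le (I N : ℕ) (a : ℕ → 𝕜) {B D : ℝ} (hB0 : 0 ≤ B)
    (hB : ∀ s : Finset ℕ, ∑ n ∈ s, ‖a n‖ ^ 2 ≤ B ^ 2) (hD : Ln α I (bv a) ≤ D) :
    Ln α I (bv (trunc N a)) ≤ 2 * D + 1 / 2 * B := by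
  classical
  obtain ⟨k, hk⟩ := exists_blk N
  rw [sig, mem_Ico] at hk
  have hbvsq : ∀ K, ∑ j ∈ range K, ‖bv a j‖ ^ 2 ≤ B ^ 2 := by
    intro K
    calc ∑ j ∈ range K, ‖bv a j‖ ^ 2 ≤ ∑ j ∈ range K, ∑ n ∈ sig j, ‖a n‖ ^ 2 :=
          sum_le_sum (fun j _ => norm_bv_sq_le a j)
      _ = ∑ n ∈ (range K).biUnion sig, ‖a n‖ ^ 2 := by
          rw [sum_biUnion]
          intro i _ j _ hij
          exact sig_disjoint hij
      _ ≤ B ^ 2 := hB _
  have hdecomp : bv (trunc N a) = (bv a + (-1 : 𝕜) • (fun j => if j < k then 0 else bv a j))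
      + Pi.single k (bv (trunc N a) k) := by
    funext j
    simp only [Pi.add_apply, Pi.smul_apply, smul_eq_mul]
    rcases lt_trichotomy j k with h | h | h
    · rw [Pi.single_eq_of_ne (ne_of_lt h), if_pos h, mul_zero, add_zero, add_zero]
      unfold bv trunc
      congr 1
      apply sum_congr rfl
      intro n hn
      rw [sig, mem_Ico] at hn
      have : bs (j + 1) ≤ bs k := bs_strictMono.monotone h
      rw [if_pos (by omega)]
    · subst h
      rw [Pi.single_eq_same, if_neg (lt_irrefl _)]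
      ring
    · rw [Pi.single_eq_of_ne (ne_of_gt h), if_neg (by omega), add_zero]
      have : bv (trunc N a) j = 0 := by
        unfold bv trunc
        rw [sum_eq_zero, mul_zero]
        intro n hn
        rw [sig, mem_Ico] at hn
        have : bs (k + 1) ≤ bs j := bs_strictMono.monotone h
        rw [if_neg (by omega), mul_zero]
      rw [this]; ring
  have h1 : Ln α I (fun j => if j < k then 0 else bv a j) ≤ D + 1 / 4 * B :=
    (Ln_tail_le hα I k (bv a) hB0 (hbvsq k)).trans (by linarith)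
  have h2 : Ln α I (Pi.single k (bv (trunc N a) k)) ≤ 1 / 4 * B := by
    refine (Ln_single_le hα I k _).trans ?_
    have h3 : ‖bv (trunc N a) k‖ ^ 2 ≤ B ^ 2 := by
      refine (norm_bv_sq_le _ k).trans ((sum_le_sum ?_).trans (hB (sig k)))
      intro n _
      unfold trunc
      split_ifs
      · exact le_rfl
      · simp
    have := le_of_sq_le_sq h3 hB0
    linarith
  rw [hdecomp]
  have h3 := Ln_add_le α I (bv a + (-1 : 𝕜) • (fun j => if j < k then 0 else bv a j))
      (Pi.single k (bv (trunc N a) k))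
  have h4 := Ln_add_le α I (bv a) ((-1 : 𝕜) • (fun j => if j < k then 0 else bv a j))
  rw [Ln_smul, norm_neg, norm_one, one_mul] at h4
  linarith

/-- Upper bound for `Fv`. -/
lemma Fv_le (A : Finset ℕ) (I : ℕ) (a : ℕ → 𝕜) {B D : ℝ} (hB0 : 0 ≤ B)
    (hB : ∀ s : Finset ℕ, ∑ n ∈ s, ‖a n‖ ^ 2 ≤ B ^ 2) (hD : Ln α I (bv a) ≤ D) :
    Fv α A I a ≤ D + 2 * B := by
  classical
  set m := A.card with hm
  have hbvsq : ∀ K, ∑ j ∈ range K, ‖bv a j‖ ^ 2 ≤ B ^ 2 := by
    intro K
    calc ∑ j ∈ range K, ‖bv a j‖ ^ 2 ≤ ∑ j ∈ range K, ∑ n ∈ sig j, ‖a n‖ ^ 2 :=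
          sum_le_sum (fun j _ => norm_bv_sq_le a j)
      _ = ∑ n ∈ (range K).biUnion sig, ‖a n‖ ^ 2 := by
          rw [sum_biUnion]
          intro i _ j _ hij
          exact sig_disjoint hij
      _ ≤ B ^ 2 := hB _
  -- the symmetric part
  have hsym : (∑ n ∈ A, ‖a n‖) / √(m : ℝ) ≤ B := by
    rcases Nat.eq_zero_or_pos m with h0 | h0
    · rw [h0]; simpa using hB0
    · have hm0 : 0 < √(m : ℝ) := Real.sqrt_pos.mpr (by exact_mod_cast h0)
      rw [div_le_iff₀ hm0]
      have h1 : (∑ n ∈ A, ‖a n‖) ^ 2 ≤ (B * √(m : ℝ)) ^ 2 := by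
        rw [mul_pow, Real.sq_sqrt (by positivity)]
        have := sq_sum_le_card_mul_sum_sq (s := A) (f := fun n => ‖a n‖)
        rw [← hm] at this
        have h2 := hB A
        nlinarith [(Nat.cast_nonneg m : (0 : ℝ) ≤ m)]
      exact le_of_sq_le_sq h1 (by positivity)
  -- main part of the conditional seminorm
  set j₀ := Nat.log 4 m with hj₀
  have hmain : Ln α I (fun j => (psi m j : 𝕜) * bv a j) ≤ D + 1 / 2 * B := by
    have hdec : (fun j => (psi m j : 𝕜) * bv a j)
        = (fun j => if j < j₀ + 1 then 0 else bv a j)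
          + Pi.single j₀ ((psi m j₀ : 𝕜) * bv a j₀) := by
      funext j
      rw [Pi.add_apply]
      rcases lt_trichotomy j j₀ with h | h | h
      · rw [Pi.single_eq_of_ne (ne_of_lt h), if_pos (by omega), (psi_below h).1]; simp
      · subst h; rw [Pi.single_eq_same, if_pos (by omega), zero_add]
      · rw [Pi.single_eq_of_ne (ne_of_gt h), if_neg (by omega), (psi_above h).1]; simp
    rw [hdec]
    have h1 := Ln_tail_le hα I (j₀ + 1) (bv a) hB0 (hbvsq (j₀ + 1))
    have h2 := Ln_single_le hα I j₀ ((psi m j₀ : 𝕜) * bv a j₀)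
    have h3 : ‖(psi m j₀ : 𝕜) * bv a j₀‖ ≤ B := by
      rw [norm_mul, RCLike.norm_ofReal, abs_of_nonneg (psi_nonneg _ _)]
      have h4 : ‖bv a j₀‖ ^ 2 ≤ B ^ 2 := (norm_bv_sq_le a j₀).trans (hB _)
      have h5 := le_of_sq_le_sq h4 hB0
      calc psi m j₀ * ‖bv a j₀‖ ≤ 1 * B := by
            apply mul_le_mul (psi_le_one _ _) h5 (norm_nonneg _) (by norm_num)
        _ = B := one_mul B
    have h4 := Ln_add_le α I (fun j => if j < j₀ + 1 then 0 else bv a j)
      (Pi.single j₀ ((psi m j₀ : 𝕜) * bv a j₀))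
    linarith
  -- the part on `A`
  have hA : Ln α I (∑ n ∈ A, (fun j => (psi m j : 𝕜) * bv (Pi.single n (a n)) j)) ≤ 1 / 4 * B := by
    refine (Ln_sum_le α I A _).trans ?_
    have h1 : ∀ n ∈ A, Ln α I (fun j => (psi m j : 𝕜) * bv (Pi.single n (a n)) j)
        ≤ 1 / 4 * (‖a n‖ / √(m : ℝ)) := by
      intro n hn
      have hmpos : 0 < m := card_pos.mpr ⟨n, hn⟩
      have hm0 : 0 < √(m : ℝ) := Real.sqrt_pos.mpr (by exact_mod_cast hmpos)
      obtain ⟨j₁, hj₁⟩ := exists_blk n
      have h2 : (fun j => (psi m j : 𝕜) * bv (Pi.single n (a n)) j)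
          = Pi.single j₁ ((psi m j₁ : 𝕜) * (((2 : 𝕜) ^ (j₁ + 1))⁻¹ * ((-1) ^ n * a n))) := by
        funext j
        rw [bv_single hj₁]
        by_cases hj : j = j₁
        · subst hj; simp
        · rw [Pi.single_eq_of_ne hj, Pi.single_eq_of_ne hj, mul_zero]
      rw [h2]
      refine (Ln_single_le hα I j₁ _).trans ?_
      rw [norm_mul, RCLike.norm_ofReal, norm_mul, norm_two_pow_inv, norm_mul, norm_pow, norm_neg,
        norm_one, one_pow, one_mul, abs_of_nonneg (psi_nonneg _ _)]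
      apply mul_le_mul_of_nonneg_left _ (by norm_num)
      by_cases hpsi : psi m j₁ = 0
      · rw [hpsi, zero_mul]; positivity
      · have h3 := lt_of_psi_ne_zero hpsi
        have h4 : (m : ℝ) ≤ 4 ^ (j₁ + 1) := by exact_mod_cast h3.le
        have h5 : √(m : ℝ) ≤ 2 ^ (j₁ + 1) := by
          rw [← sqrt_four_pow]; exact Real.sqrt_le_sqrt h4
        calc psi m j₁ * (((2 : ℝ) ^ (j₁ + 1))⁻¹ * ‖a n‖)
            ≤ 1 * ((√(m : ℝ))⁻¹ * ‖a n‖) := by
              apply mul_le_mul (psi_le_one _ _) _ (by positivity) (by norm_num)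
              apply mul_le_mul_of_nonneg_right _ (norm_nonneg _)
              exact inv_anti₀ hm0 h5
          _ = ‖a n‖ / √(m : ℝ) := by rw [one_mul, div_eq_inv_mul]
    refine (sum_le_sum h1).trans ?_
    rw [← mul_sum, ← sum_div]
    linarith
  have hsplit : (fun j => (psi m j : 𝕜) * bv (off A a) j)
      = (fun j => (psi m j : 𝕜) * bv a j)
        + (-1 : 𝕜) • ∑ n ∈ A, (fun j => (psi m j : 𝕜) * bv (Pi.single n (a n)) j) := by
    have hoff : a = off A a + ∑ n ∈ A, Pi.single n (a n) := by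
      funext n
      rw [Pi.add_apply, Finset.sum_apply]
      unfold off
      by_cases hn : n ∈ A
      · rw [if_pos hn, sum_eq_single n]
        · simp
        · intro b _ hb; rw [Pi.single_eq_of_ne hb.symm]
        · intro h; exact absurd hn h
      · rw [if_neg hn, sum_eq_zero, add_zero]
        intro b hb
        rw [Pi.single_eq_of_ne]
        rintro rfl; exact hn hb
    have hbvsum : ∀ j, bv (∑ n ∈ A, Pi.single n (a n) : ℕ → 𝕜) j
        = ∑ n ∈ A, bv (Pi.single n (a n)) j := by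
      intro j
      have : ∀ s : Finset ℕ, bv (∑ n ∈ s, Pi.single n (a n) : ℕ → 𝕜) j
        = ∑ n ∈ s, bv (Pi.single n (a n)) j := by
        intro s
        induction s using Finset.induction_on with
        | empty =>
          have := bv_smul (0 : 𝕜) (0 : ℕ → 𝕜) j
          simpa using this
        | insert n s hn ih => rw [sum_insert hn, sum_insert hn, bv_add, ih]
      exact this A
    funext j
    have e : bv a j = bv (off A a) j + bv (∑ n ∈ A, Pi.single n (a n) : ℕ → 𝕜) j := by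
      rw [← bv_add, ← hoff]
    rw [Pi.add_apply, Pi.smul_apply, Finset.sum_apply, smul_eq_mul, ← mul_sum, ← hbvsum, e]
    ring
  have hfin : Ln α I (fun j => (psi m j : 𝕜) * bv (off A a) j) ≤ D + 3 / 4 * B := by
    rw [hsplit]
    have h1 := Ln_add_le α I (fun j => (psi m j : 𝕜) * bv a j)
      ((-1 : 𝕜) • ∑ n ∈ A, (fun j => (psi m j : 𝕜) * bv (Pi.single n (a n)) j))
    rw [Ln_smul, norm_neg, norm_one, one_mul] at h1
    linarith
  unfold Fv
  rw [← hm]
  linarith

end

end Pool.Agent.Work.MP_2eb999_an
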