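import Pool.Agent.Work.MP_2eb999_an.Blocks

set_option autoImplicit false

namespace Pool.Agent.Work.MP_2eb999_an

open Finset Filter

/-- Cut-off weights: `0` when `4^(j+1) ≤ m`, `1` when `m ≤ 4^j`. -/
noncomputable def psi (m j : ℕ) : ℝ := max 0 (min 1 (2 - √m / 2 ^ j))

lemma psi_nonneg (m j : ℕ) : 0 ≤ psi m j := le_max_left _ _

lemma psi_le_one (m j : ℕ) : psi m j ≤ 1 :=
  max_le (by norm_num) (min_le_left _ _)

lemma sqrt_four_pow (j : ℕ) : √((4 : ℝ) ^ j) = 2 ^ j := by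
  rw [show (4 : ℝ) = 2 * 2 by norm_num, mul_pow, ← sq, Real.sqrt_sq (by positivity)]

lemma psi_eq_zero {m j : ℕ} (h : 4 ^ (j + 1) ≤ m) : psi m j = 0 := by
  have h1 : (4 : ℝ) ^ (j + 1) ≤ m := by exact_mod_cast h
  have h2 : (2 : ℝ) ^ (j + 1) ≤ √m := by
    rw [← sqrt_four_pow]; exact Real.sqrt_le_sqrt h1
  have h3 : 2 - √m / 2 ^ j ≤ 0 := by
    rw [sub_nonpos, le_div_iff₀ (by positivity)]
    rw [pow_succ] at h2; linarith
  unfold psi
  exact max_eq_left ((min_le_right _ _).trans h3)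

lemma psi_eq_one {m j : ℕ} (h : m ≤ 4 ^ j) : psi m j = 1 := by
  have h1 : (m : ℝ) ≤ (4 : ℝ) ^ j := by exact_mod_cast h
  have h2 : √m ≤ (2 : ℝ) ^ j := by
    rw [← sqrt_four_pow]; exact Real.sqrt_le_sqrt h1
  have h3 : 1 ≤ 2 - √m / 2 ^ j := by
    have : √m / 2 ^ j ≤ 1 := by
      rw [div_le_one (by positivity)]; exact h2
    linarith
  unfold psi
  rw [min_eq_left h3]
  norm_num

lemma lt_of_psi_ne_zero {m j : ℕ} (h : psi m j ≠ 0) : m < 4 ^ (j + 1) := by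
  by_contra hlt
  push Not at hlt
  exact h (psi_eq_zero hlt)

lemma psi_diff (m j : ℕ) : |psi m j - psi (m + 1) j| ≤ (√((m : ℝ) + 1) - √m) / 2 ^ j := by
  have h1 : |psi m j - psi (m + 1) j| ≤ |(2 - √m / 2 ^ j) - (2 - √((m + 1 : ℕ) : ℝ) / 2 ^ j)| := by
    unfold psi
    refine (abs_max_sub_max_le_max _ _ _ _).trans ?_
    rw [sub_self, abs_zero]
    apply max_le (abs_nonneg _)
    refine (abs_min_sub_min_le_max _ _ _ _).trans ?_
    rw [sub_self, abs_zero]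
    exact max_le (abs_nonneg _) le_rfl
  refine h1.trans (le_of_eq ?_)
  have h2 : √(m : ℝ) ≤ √((m : ℝ) + 1) := Real.sqrt_le_sqrt (by linarith)
  have h3 : (2 - √m / 2 ^ j) - (2 - √((m + 1 : ℕ) : ℝ) / 2 ^ j)
      = (√((m : ℝ) + 1) - √m) / 2 ^ j := by push_cast; ring
  rw [h3, abs_of_nonneg]
  apply div_nonneg _ (by positivity)
  linarith

lemma psi_below {m j : ℕ} (h : j < Nat.log 4 m) : psi m j = 0 ∧ psi (m + 1) j = 0 := by
  have hm : m ≠ 0 := by rintro rfl; simp at h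
  have h1 : 4 ^ (j + 1) ≤ m := (Nat.pow_le_pow_right (by norm_num) h).trans (Nat.pow_log_le_self 4 hm)
  exact ⟨psi_eq_zero h1, psi_eq_zero (by omega)⟩

lemma psi_above {m j : ℕ} (h : Nat.log 4 m < j) : psi m j = 1 ∧ psi (m + 1) j = 1 := by
  have h1 : m < 4 ^ (Nat.log 4 m + 1) := Nat.lt_pow_succ_log_self (by norm_num) m
  have h2 : 4 ^ (Nat.log 4 m + 1) ≤ 4 ^ j := Nat.pow_le_pow_right (by norm_num) h
  exact ⟨psi_eq_one (by omega), psi_eq_one (by omega)⟩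

section
variable {𝕜 : Type*} [RCLike 𝕜]

/-- The sequence `a` with the coordinates in `A` replaced by `0`. -/
def off (A : Finset ℕ) (a : ℕ → 𝕜) (n : ℕ) : 𝕜 := if n ∈ A then 0 else a n

/-- The functionals defining the norm. -/
noncomputable def Fv (α : ℕ → ℝ) (A : Finset ℕ) (I : ℕ) (a : ℕ → 𝕜) : ℝ :=
  (∑ n ∈ A, ‖a n‖) / √(A.card : ℝ) +
    Ln α I (fun j => (psi A.card j : 𝕜) * bv (off A a) j)

lemma Fv_nonneg (α : ℕ → ℝ) (A : Finset ℕ) (I : ℕ) (a : ℕ → 𝕜) : 0 ≤ Fv α A I a :=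
  add_nonneg (div_nonneg (sum_nonneg (fun _ _ => norm_nonneg _)) (Real.sqrt_nonneg _))
    (Ln_nonneg _ _ _)

lemma off_add (A : Finset ℕ) (a b : ℕ → 𝕜) : off A (a + b) = off A a + off A b := by
  funext n; simp only [off, Pi.add_apply]; split_ifs <;> simp

lemma off_smul (A : Finset ℕ) (z : 𝕜) (a : ℕ → 𝕜) : off A (z • a) = z • off A a := by
  funext n; simp only [off, Pi.smul_apply]; split_ifs <;> simp

lemma norm_off_le (A : Finset ℕ) (a : ℕ → 𝕜) {t : ℝ} (ht : ∀ n, ‖a n‖ ≤ t) (n : ℕ) :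
    ‖off A a n‖ ≤ t := by
  unfold off
  split_ifs
  · rw [norm_zero]; exact (norm_nonneg _).trans (ht n)
  · exact ht n

lemma Fv_add_le (α : ℕ → ℝ) (A : Finset ℕ) (I : ℕ) (a b : ℕ → 𝕜) :
    Fv α A I (a + b) ≤ Fv α A I a + Fv α A I b := by
  unfold Fv
  have h1 : (∑ n ∈ A, ‖(a + b) n‖) / √(A.card : ℝ)
      ≤ (∑ n ∈ A, ‖a n‖) / √(A.card : ℝ) + (∑ n ∈ A, ‖b n‖) / √(A.card : ℝ) := by
    rw [← add_div, ← sum_add_distrib]
    apply div_le_div_of_nonneg_right _ (Real.sqrt_nonneg _)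
    exact sum_le_sum (fun n _ => norm_add_le _ _)
  have h2 : (fun j => (psi A.card j : 𝕜) * bv (off A (a + b)) j)
      = (fun j => (psi A.card j : 𝕜) * bv (off A a) j)
        + (fun j => (psi A.card j : 𝕜) * bv (off A b) j) := by
    funext j
    rw [Pi.add_apply, off_add, bv_add, mul_add]
  rw [h2]
  linarith [Ln_add_le α I (fun j => (psi A.card j : 𝕜) * bv (off A a) j)
    (fun j => (psi A.card j : 𝕜) * bv (off A b) j)]

lemma Fv_smul (α : ℕ → ℝ) (A : Finset ℕ) (I : ℕ) (z : 𝕜) (a : ℕ → 𝕜) :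
    Fv α A I (z • a) = ‖z‖ * Fv α A I a := by
  unfold Fv
  have h1 : (∑ n ∈ A, ‖(z • a) n‖) = ‖z‖ * ∑ n ∈ A, ‖a n‖ := by
    rw [mul_sum]
    exact sum_congr rfl (fun n _ => by rw [Pi.smul_apply, norm_smul])
  have h2 : (fun j => (psi A.card j : 𝕜) * bv (off A (z • a)) j)
      = z • (fun j => (psi A.card j : 𝕜) * bv (off A a) j) := by
    funext j
    rw [Pi.smul_apply, off_smul, bv_smul, smul_eq_mul]
    ring
  rw [h1, h2, Ln_smul]
  ring

variable {α : ℕ → ℝ} (hα : ∀ N, ∑ n ∈ range N, ((n : ℝ) + 1) * α n ^ 2 ≤ 1 / 16)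
include hα

/-- **Key lemma**: adding a coordinate of maximal modulus to `A` does not decrease `Fv`. -/
lemma Fv_insert (A : Finset ℕ) (I : ℕ) (a : ℕ → 𝕜) {t : ℝ} (ht : ∀ n, ‖a n‖ ≤ t) {n₀ : ℕ}
    (hn₀ : n₀ ∉ A) (hat : ‖a n₀‖ = t) : Fv α A I a ≤ Fv α (insert n₀ A) I a := by
  classical
  have ht0 : 0 ≤ t := hat ▸ norm_nonneg _
  set m := A.card with hm
  have hcard : (insert n₀ A).card = m + 1 := card_insert_of_notMem hn₀
  set δ : ℝ := √((m : ℝ) + 1) - √m with hδ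
  have hδ0 : 0 ≤ δ := by
    have : √(m : ℝ) ≤ √((m : ℝ) + 1) := Real.sqrt_le_sqrt (by linarith)
    linarith
  -- first part
  set Ssum := ∑ n ∈ A, ‖a n‖ with hS
  have hS0 : 0 ≤ Ssum := sum_nonneg (fun _ _ => norm_nonneg _)
  have hSm : Ssum ≤ m * t := by
    calc Ssum ≤ ∑ n ∈ A, t := sum_le_sum (fun n _ => ht n)
      _ = m * t := by simp [hm]
  have hfirst : δ * t ≤ (t + Ssum) / √((m : ℝ) + 1) - Ssum / √(m : ℝ) := by
    have hm1 : 0 < √((m : ℝ) + 1) := Real.sqrt_pos.mpr (by positivity)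
    have hsq1 : √((m : ℝ) + 1) * √((m : ℝ) + 1) = m + 1 := Real.mul_self_sqrt (by positivity)
    rcases Nat.eq_zero_or_pos m with h0 | h0
    · have hS' : Ssum = 0 := by
        apply le_antisymm _ hS0
        rw [h0] at hSm; simpa using hSm
      rw [hS', hδ, h0]; simp
    · have hm0 : 0 < √(m : ℝ) := Real.sqrt_pos.mpr (by exact_mod_cast h0)
      have hsq0 : √(m : ℝ) * √(m : ℝ) = m := Real.mul_self_sqrt (by positivity)
      have hle : √(m : ℝ) ≤ √((m : ℝ) + 1) := Real.sqrt_le_sqrt (by linarith)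
      have e1 : (t + Ssum) / √((m : ℝ) + 1) - Ssum / √(m : ℝ)
          = δ * t + (m * t - Ssum) * (1 / √(m : ℝ) - 1 / √((m : ℝ) + 1)) := by
        have e2 : t / √((m : ℝ) + 1) = √((m : ℝ) + 1) * t - m * t * (1 / √((m : ℝ) + 1)) := by
          field_simp
          rw [sq, hsq1]; ring
        have e3 : m * t * (1 / √(m : ℝ)) = √(m : ℝ) * t := by
          field_simp
          rw [sq, hsq0]; ring
        rw [hδ]
        calc (t + Ssum) / √((m : ℝ) + 1) - Ssum / √(m : ℝ)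
            = t / √((m : ℝ) + 1) + Ssum * (1 / √((m : ℝ) + 1)) - Ssum * (1 / √(m : ℝ)) := by ring
          _ = (√((m : ℝ) + 1) * t - m * t * (1 / √((m : ℝ) + 1)))
              + Ssum * (1 / √((m : ℝ) + 1)) - Ssum * (1 / √(m : ℝ)) := by rw [e2]
          _ = _ := by linear_combination (-1 : ℝ) * e3
      rw [e1]
      have h2 : 0 ≤ 1 / √(m : ℝ) - 1 / √((m : ℝ) + 1) :=
        sub_nonneg.mpr (one_div_le_one_div_of_le hm0 hle)
      have h3 : 0 ≤ m * t - Ssum := by linarith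
      have := mul_nonneg h3 h2
      linarith
  -- second part
  obtain ⟨j₁, hj₁⟩ := exists_blk n₀
  set j₀ := Nat.log 4 m with hj₀
  set a' := off (insert n₀ A) a with ha'
  have hoff : off A a = a' + Pi.single n₀ (a n₀) := by
    funext n
    rw [Pi.add_apply, ha']
    unfold off
    by_cases hn : n = n₀
    · subst hn
      rw [if_neg hn₀, if_pos (mem_insert_self _ _), Pi.single_eq_same, zero_add]
    · rw [Pi.single_eq_of_ne hn, add_zero]
      by_cases hnA : n ∈ A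
      · rw [if_pos hnA, if_pos (mem_insert_of_mem hnA)]
      · rw [if_neg hnA, if_neg (by simp [hn, hnA])]
  have hdecomp : (fun j => (psi m j : 𝕜) * bv (off A a) j)
      = ((fun j => (psi (m + 1) j : 𝕜) * bv a' j)
        + Pi.single j₀ (((psi m j₀ - psi (m + 1) j₀ : ℝ) : 𝕜) * bv a' j₀))
        + Pi.single j₁ ((psi m j₁ : 𝕜) * (((2 : 𝕜) ^ (j₁ + 1))⁻¹ * ((-1) ^ n₀ * a n₀))) := by
    funext j
    simp only [Pi.add_apply]
    rw [hoff, bv_add, bv_single hj₁, mul_add]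
    have e1 : (psi m j : 𝕜) * (Pi.single j₁ (((2 : 𝕜) ^ (j₁ + 1))⁻¹ * ((-1) ^ n₀ * a n₀)) : ℕ → 𝕜) j
        = (Pi.single j₁ ((psi m j₁ : 𝕜) * (((2 : 𝕜) ^ (j₁ + 1))⁻¹ * ((-1) ^ n₀ * a n₀))) : ℕ → 𝕜) j := by
      by_cases hj : j = j₁
      · subst hj; simp
      · rw [Pi.single_eq_of_ne hj, Pi.single_eq_of_ne hj, mul_zero]
    rw [e1]
    congr 1
    by_cases hj : j = j₀
    · subst hj
      rw [Pi.single_eq_same]
      push_cast
      ring
    · rw [Pi.single_eq_of_ne hj, add_zero]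
      congr 2
      rcases Nat.lt_or_gt_of_ne hj with h | h
      · rw [(psi_below h).1, (psi_below h).2]
      · rw [(psi_above h).1, (psi_above h).2]
  have hd1 : Ln α I (Pi.single j₀ (((psi m j₀ - psi (m + 1) j₀ : ℝ) : 𝕜) * bv a' j₀))
      ≤ 1 / 2 * (δ * t) := by
    refine (Ln_single_le hα I j₀ _).trans ?_
    rw [norm_mul, RCLike.norm_ofReal]
    have h1 := psi_diff m j₀
    have h2 := norm_bv_le a' j₀ (norm_off_le (insert n₀ A) a ht)
    calc 1 / 4 * (|psi m j₀ - psi (m + 1) j₀| * ‖bv a' j₀‖)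
        ≤ 1 / 4 * ((√((m : ℝ) + 1) - √m) / 2 ^ j₀ * (2 ^ (j₀ + 1) * t)) := by gcongr
      _ = 1 / 2 * (δ * t) := by
          rw [← hδ, pow_succ]
          field_simp
          ring
  have hd2 : Ln α I (Pi.single j₁ ((psi m j₁ : 𝕜) * (((2 : 𝕜) ^ (j₁ + 1))⁻¹ * ((-1) ^ n₀ * a n₀))))
      ≤ 1 / 2 * (δ * t) := by
    refine (Ln_single_le hα I j₁ _).trans ?_
    rw [norm_mul, RCLike.norm_ofReal, norm_mul, norm_two_pow_inv, norm_mul, norm_pow, norm_neg,
      norm_one, one_pow, one_mul, hat, abs_of_nonneg (psi_nonneg _ _)]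
    by_cases hpsi : psi m j₁ = 0
    · rw [hpsi]; simp; positivity
    · have h1 := lt_of_psi_ne_zero hpsi
      have h2 : (m : ℝ) + 1 ≤ 4 ^ (j₁ + 1) := by exact_mod_cast h1
      have h3 : √((m : ℝ) + 1) ≤ 2 ^ (j₁ + 1) := by
        rw [← sqrt_four_pow]; exact Real.sqrt_le_sqrt h2
      have h4 : √(m : ℝ) ≤ 2 ^ (j₁ + 1) :=
        (Real.sqrt_le_sqrt (by linarith)).trans h3
      have h5 : δ * (√((m : ℝ) + 1) + √m) = 1 := by
        rw [hδ]
        have e1 : √((m : ℝ) + 1) * √((m : ℝ) + 1) = m + 1 := Real.mul_self_sqrt (by positivity)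
        have e2 : √(m : ℝ) * √(m : ℝ) = m := Real.mul_self_sqrt (by positivity)
        linear_combination e1 - e2
      have h6 : ((2 : ℝ) ^ (j₁ + 1))⁻¹ ≤ 2 * δ := by
        rw [inv_le_iff_one_le_mul₀ (by positivity)]
        nlinarith
      calc 1 / 4 * (psi m j₁ * (((2 : ℝ) ^ (j₁ + 1))⁻¹ * t))
          ≤ 1 / 4 * (1 * (2 * δ * t)) := by
            gcongr
            exact psi_le_one _ _
        _ = 1 / 2 * (δ * t) := by ring
  unfold Fv
  rw [hcard, sum_insert hn₀, hat, ← hS, ← hm, hdecomp]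
  have h1 := Ln_add_le α I ((fun j => (psi (m + 1) j : 𝕜) * bv a' j)
        + Pi.single j₀ (((psi m j₀ - psi (m + 1) j₀ : ℝ) : 𝕜) * bv a' j₀))
        (Pi.single j₁ ((psi m j₁ : 𝕜) * (((2 : 𝕜) ^ (j₁ + 1))⁻¹ * ((-1) ^ n₀ * a n₀))))
  have h2 := Ln_add_le α I (fun j => (psi (m + 1) j : 𝕜) * bv a' j)
        (Pi.single j₀ (((psi m j₀ - psi (m + 1) j₀ : ℝ) : 𝕜) * bv a' j₀))
  simp only [Nat.cast_add, Nat.cast_one]
  linarith

/-- Adding a finite set of coordinates of maximal modulus. -/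
lemma Fv_union (A B : Finset ℕ) (I : ℕ) (a : ℕ → 𝕜) {t : ℝ} (ht : ∀ n, ‖a n‖ ≤ t)
    (hB : ∀ n ∈ B, ‖a n‖ = t) : Fv α A I a ≤ Fv α (A ∪ B) I a := by
  classical
  induction B using Finset.induction_on with
  | empty => simp
  | insert n₀ B _ ih =>
    have ih' := ih (fun n hn => hB n (mem_insert_of_mem hn))
    rw [union_insert]
    by_cases hmem : n₀ ∈ A ∪ B
    · rw [insert_eq_of_mem hmem]; exact ih'
    · exact ih'.trans (Fv_insert hα _ I a ht hmem (hB n₀ (mem_insert_self _ _)))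

end

end Pool.Agent.Work.MP_2eb999_an
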