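import Pool.Agent.Work.MP_2eb999_an.Space

set_option autoImplicit false

namespace Pool.Agent.Work.MP_2eb999_an

open Finset Filter Topology

section
variable {𝕜 : Type*} [RCLike 𝕜]

lemma Fv_le_V (x : V0 𝕜) (A : Finset ℕ) (I : ℕ) :
    Fv alpha A I ⇑(x : W2 𝕜).fst ≤ ‖(x : W2 𝕜).snd‖ + 2 * ‖(x : W2 𝕜).fst‖ :=
  Fv_le alpha_bound A I _ (norm_nonneg _) (fun s => E2_sum_le _ s) (Ln_le_snd x I)

lemma bddAbove_Fv (x : V0 𝕜) :
    BddAbove (Set.range fun q : Finset ℕ × ℕ => Fv alpha q.1 q.2 ⇑(x : W2 𝕜).fst) := by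
  refine ⟨‖(x : W2 𝕜).snd‖ + 2 * ‖(x : W2 𝕜).fst‖, ?_⟩
  rintro _ ⟨q, rfl⟩
  exact Fv_le_V x q.1 q.2

/-- The new norm on `V0`, as a function. -/
noncomputable def pVfun (x : V0 𝕜) : ℝ :=
  ‖(x : W2 𝕜).fst‖ + ⨆ q : Finset ℕ × ℕ, Fv alpha q.1 q.2 ⇑(x : W2 𝕜).fst

/-- The new norm on `V0`. -/
noncomputable def pV (𝕜 : Type*) [RCLike 𝕜] : Seminorm 𝕜 (V0 𝕜) := Seminorm.of pVfun
  (by
    intro x y
    unfold pVfun
    have h1 : ‖((x + y : V0 𝕜) : W2 𝕜).fst‖ ≤ ‖(x : W2 𝕜).fst‖ + ‖(y : W2 𝕜).fst‖ := by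
      rw [Submodule.coe_add, WithLp.add_fst]; exact norm_add_le _ _
    have h2 : (⨆ q : Finset ℕ × ℕ, Fv alpha q.1 q.2 ⇑((x + y : V0 𝕜) : W2 𝕜).fst)
        ≤ (⨆ q : Finset ℕ × ℕ, Fv alpha q.1 q.2 ⇑(x : W2 𝕜).fst)
          + ⨆ q : Finset ℕ × ℕ, Fv alpha q.1 q.2 ⇑(y : W2 𝕜).fst := by
      apply ciSup_le
      intro q
      have e : (⇑((x + y : V0 𝕜) : W2 𝕜).fst : ℕ → 𝕜) = ⇑(x : W2 𝕜).fst + ⇑(y : W2 𝕜).fst := rfl
      rw [e]
      exact (Fv_add_le _ _ _ _ _).trans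
        (add_le_add (le_ciSup (bddAbove_Fv x) q) (le_ciSup (bddAbove_Fv y) q))
    linarith)
  (by
    intro c x
    unfold pVfun
    have h1 : ‖((c • x : V0 𝕜) : W2 𝕜).fst‖ = ‖c‖ * ‖(x : W2 𝕜).fst‖ := by
      rw [Submodule.coe_smul, WithLp.smul_fst]; exact norm_smul _ _
    have e : (⇑((c • x : V0 𝕜) : W2 𝕜).fst : ℕ → 𝕜) = c • ⇑(x : W2 𝕜).fst := rfl
    rw [h1, e]
    simp_rw [Fv_smul]
    rw [← Real.mul_iSup_of_nonneg (norm_nonneg c), mul_add])

lemma pV_apply (x : V0 𝕜) : pV 𝕜 x = pVfun x := rfl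

lemma pV_le (x : V0 𝕜) : pV 𝕜 x ≤ 4 * ‖x‖ := by
  rw [pV_apply]
  unfold pVfun
  have h1 : (⨆ q : Finset ℕ × ℕ, Fv alpha q.1 q.2 ⇑(x : W2 𝕜).fst)
      ≤ ‖(x : W2 𝕜).snd‖ + 2 * ‖(x : W2 𝕜).fst‖ := ciSup_le (fun q => Fv_le_V x q.1 q.2)
  have h2 := fst_le (x : W2 𝕜)
  have h3 := snd_le (x : W2 𝕜)
  have h7 : ‖x‖ = ‖(x : W2 𝕜)‖ := rfl
  rw [h7]
  linarith

lemma le_pV (x : V0 𝕜) : ‖x‖ ≤ pV 𝕜 x := by
  rw [pV_apply]
  have h7 : ‖x‖ = ‖(x : W2 𝕜)‖ := rfl
  rw [h7]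
  refine (norm_W_le _).trans ?_
  unfold pVfun
  have h0 : 0 ≤ ⨆ q : Finset ℕ × ℕ, Fv alpha q.1 q.2 ⇑(x : W2 𝕜).fst :=
    (Fv_nonneg alpha ∅ 0 _).trans (le_ciSup (bddAbove_Fv x) (∅, 0))
  have h1 : ‖(x : W2 𝕜).snd‖ ≤ ⨆ q : Finset ℕ × ℕ, Fv alpha q.1 q.2 ⇑(x : W2 𝕜).fst := by
    apply E2_norm_le h0
    intro I
    have h2 : ∑ i ∈ range I, ‖(x : W2 𝕜).snd i‖ ^ 2 = Ln alpha I (bv ⇑(x : W2 𝕜).fst) ^ 2 := by
      rw [Ln_sq]
      apply sum_congr rfl
      intro i _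
      rw [V0_graph x.2]
    rw [h2]
    apply pow_le_pow_left₀ (Ln_nonneg _ _ _)
    refine le_trans ?_ (le_ciSup (bddAbove_Fv x) (∅, I))
    unfold Fv
    simp only [sum_empty, zero_div, zero_add, card_empty]
    apply le_of_eq
    congr 1
    funext j
    have e1 : psi 0 j = 1 := psi_eq_one (by positivity)
    have e2 : off ∅ (⇑(x : W2 𝕜).fst : ℕ → 𝕜) = ⇑(x : W2 𝕜).fst := by
      funext n; simp [off]
    rw [e1, e2]
    simp
  linarith

lemma fst_norm_le_of_greedy {x y : V0 𝕜}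
    (h : GreedyRearr (fun n => coordV n x) (fun n => coordV n y)) :
    ‖(y : W2 𝕜).fst‖ ≤ ‖(x : W2 𝕜).fst‖ := by
  classical
  obtain ⟨π, h1, -⟩ := h
  apply E2_norm_le (norm_nonneg _)
  intro I
  have h2 : ∑ i ∈ range I, ‖(y : W2 𝕜).fst i‖ ^ 2
      = ∑ n ∈ (range I).map π.symm.toEmbedding, ‖(x : W2 𝕜).fst n‖ ^ 2 := by
    rw [sum_map]
    apply sum_congr rfl
    intro i _
    have := h1 (π.symm i)
    rw [Equiv.apply_symm_apply] at this
    simp only [coordV_apply] at this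
    rw [this]
    rfl
  rw [h2]
  exact E2_sum_le _ _

lemma pV_greedy_le {x y : V0 𝕜}
    (h : GreedyRearr (fun n => coordV n x) (fun n => coordV n y)) : pV 𝕜 x ≤ pV 𝕜 y := by
  rw [pV_apply, pV_apply]
  unfold pVfun
  have h1 := fst_norm_le_of_greedy h.symm
  have h2 : (⨆ q : Finset ℕ × ℕ, Fv alpha q.1 q.2 ⇑(x : W2 𝕜).fst)
      ≤ ⨆ q : Finset ℕ × ℕ, Fv alpha q.1 q.2 ⇑(y : W2 𝕜).fst := by
    apply ciSup_le
    intro q
    obtain ⟨A', hA'⟩ := Fv_le_of_greedy alpha_bound (E2_tendsto (x : W2 𝕜).fst) h q.1 q.2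
    exact hA'.trans (le_ciSup (bddAbove_Fv y) (A', q.2))
  linarith

/-- Property (A) on `V0`. -/
lemma pV_greedy {x y : V0 𝕜}
    (h : GreedyRearr (fun n => coordV n x) (fun n => coordV n y)) : pV 𝕜 x = pV 𝕜 y :=
  le_antisymm (pV_greedy_le h) (pV_greedy_le h.symm)

/-! ### Conditionality -/

lemma even_bs (j : ℕ) : Even (bs j) := by
  induction j with
  | zero => simp [bs]
  | succ j ih =>
    rw [bs_succ]
    exact ih.add ((show Even 4 by decide).pow_of_ne_zero (by omega))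

lemma sum_neg_one_pow (s q : ℕ) (hs : Even s) :
    ∑ n ∈ Ico s (s + 2 * q), ((-1 : ℝ)) ^ n = 0 := by
  induction q with
  | zero => simp
  | succ q ih =>
    rw [show s + 2 * (q + 1) = (s + 2 * q + 1) + 1 by ring, sum_Ico_succ_top (by omega),
      sum_Ico_succ_top (by omega), ih]
    have h1 : Even (s + 2 * q) := hs.add (even_two_mul q)
    rw [h1.neg_one_pow, (h1.add_one).neg_one_pow]
    norm_num

lemma sum_sig_neg_one (j : ℕ) : ∑ n ∈ sig j, ((-1 : ℝ)) ^ n = 0 := by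
  unfold sig
  rw [bs_succ, show 4 ^ (j + 1) = 2 * (2 * 4 ^ j) by ring]
  exact sum_neg_one_pow _ _ (even_bs j)

/-- Number of even elements of a block, weighted form. -/
lemma sum_sig_even (j : ℕ) : ∑ n ∈ sig j, ((-1 : ℝ)) ^ n * (if Even n then 1 else 0)
    = 4 ^ (j + 1) / 2 := by
  have h1 : ∀ n, ((-1 : ℝ)) ^ n * (if Even n then 1 else 0) = (1 + (-1) ^ n) / 2 := by
    intro n
    by_cases hn : Even n
    · rw [if_pos hn, hn.neg_one_pow]; norm_num
    · rw [if_neg hn, (Nat.not_even_iff_odd.mp hn).neg_one_pow]; norm_num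
  simp_rw [h1]
  rw [← sum_div, sum_add_distrib, sum_sig_neg_one, add_zero]
  simp [card_sig]

/-- Coefficients of the test vector. -/
noncomputable def testc (𝕜 : Type*) [RCLike 𝕜] (n : ℕ) : 𝕜 :=
  ((2 : 𝕜) ^ ((exists_blk n).choose + 1))⁻¹

lemma testc_eq {n j : ℕ} (h : n ∈ sig j) : testc 𝕜 n = ((2 : 𝕜) ^ (j + 1))⁻¹ := by
  unfold testc
  rw [sig_unique (exists_blk n).choose_spec h]

/-- The test vector. -/
noncomputable def testx (𝕜 : Type*) [RCLike 𝕜] (J : ℕ) : V0 𝕜 :=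
  ∑ n ∈ range (bs J), testc 𝕜 n • eV n

/-- The even part of the test vector. -/
noncomputable def testy (𝕜 : Type*) [RCLike 𝕜] (J : ℕ) : V0 𝕜 :=
  ∑ n ∈ (range (bs J)).filter Even, testc 𝕜 n • eV n

lemma range_bs (J : ℕ) : range (bs J) = (range J).biUnion sig := by
  ext n
  rw [mem_range, mem_biUnion]
  constructor
  · intro h
    obtain ⟨j, hj⟩ := exists_blk n
    refine ⟨j, ?_, hj⟩
    rw [mem_range]
    by_contra hlt
    rw [sig, mem_Ico] at hj
    have : bs J ≤ bs j := bs_strictMono.monotone (not_lt.mp hlt)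
    omega
  · rintro ⟨j, hj, hn⟩
    rw [sig, mem_Ico] at hn
    have : bs (j + 1) ≤ bs J := bs_strictMono.monotone (mem_range.mp hj)
    omega

lemma norm_testx (J : ℕ) : ‖testx 𝕜 J‖ ^ 2 ≤ J := by
  have h7 : ‖testx 𝕜 J‖ = ‖((testx 𝕜 J : V0 𝕜) : W2 𝕜)‖ := rfl
  rw [h7, WithLp.prod_norm_sq_eq_of_L2]
  have h1 : ‖((testx 𝕜 J : V0 𝕜) : W2 𝕜).fst‖ ≤ √J := by
    apply E2_norm_le (Real.sqrt_nonneg _)
    intro I
    rw [Real.sq_sqrt (by positivity)]
    unfold testx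
    simp_rw [sum_eV_fst]
    have h2 : ∀ i, ‖(if i ∈ range (bs J) then testc 𝕜 i else 0)‖ ^ 2
        = if i ∈ range (bs J) then ‖testc 𝕜 i‖ ^ 2 else 0 := by
      intro i; split_ifs <;> simp
    simp_rw [h2]
    rw [← sum_filter]
    calc ∑ i ∈ (range I).filter (fun i => i ∈ range (bs J)), ‖testc 𝕜 i‖ ^ 2
        ≤ ∑ i ∈ range (bs J), ‖testc 𝕜 i‖ ^ 2 := by
          apply sum_le_sum_of_subset_of_nonneg
          · intro i hi; exact (mem_filter.mp hi).2
          · intros; positivity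
      _ = ∑ j ∈ range J, ∑ i ∈ sig j, ‖testc 𝕜 i‖ ^ 2 := by
          rw [range_bs, sum_biUnion]
          intro i _ j _ hij
          exact sig_disjoint hij
      _ = ∑ j ∈ range J, (1 : ℝ) := by
          apply sum_congr rfl
          intro j _
          have : ∀ i ∈ sig j, ‖testc 𝕜 i‖ ^ 2 = (((2 : ℝ) ^ (j + 1))⁻¹) ^ 2 := by
            intro i hi
            rw [testc_eq hi, norm_two_pow_inv]
          rw [sum_congr rfl this, sum_const, card_sig, nsmul_eq_mul]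
          push_cast
          rw [show (4 : ℝ) = 2 * 2 by norm_num, mul_pow]
          field_simp
      _ = J := by simp
  have h2 : ((testx 𝕜 J : V0 𝕜) : W2 𝕜).snd = 0 := by
    ext i
    unfold testx
    rw [sum_eV_snd]
    have : bv (fun m => if m ∈ range (bs J) then testc 𝕜 m else 0)
        = (0 : 𝕜) • (0 : ℕ → 𝕜) := by
      funext j
      rw [zero_smul, Pi.zero_apply]
      unfold bv
      by_cases hj : j < J
      · have h3 : ∀ n ∈ sig j, (-1 : 𝕜) ^ n * (if n ∈ range (bs J) then testc 𝕜 n else 0)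
            = (((-1 : ℝ) ^ n : ℝ) : 𝕜) * ((2 : 𝕜) ^ (j + 1))⁻¹ := by
          intro n hn
          have hmem : n ∈ range (bs J) := by
            rw [range_bs, mem_biUnion]; exact ⟨j, mem_range.mpr hj, hn⟩
          rw [if_pos hmem, testc_eq hn]
          push_cast
          rfl
        rw [sum_congr rfl h3, ← sum_mul, ← RCLike.ofReal_sum, sum_sig_neg_one]
        simp
      · rw [sum_eq_zero, mul_zero]
        intro n hn
        have hmem : n ∉ range (bs J) := by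
          rw [range_bs, mem_biUnion]
          rintro ⟨j', hj', hn'⟩
          have := sig_unique hn hn'
          rw [mem_range] at hj'
          omega
        simp only [if_neg hmem, mul_zero]
    rw [this, Lc_smul, zero_mul]
    rfl
  rw [h2, norm_zero]
  have h3 : ‖((testx 𝕜 J : V0 𝕜) : W2 𝕜).fst‖ ^ 2 ≤ (√J) ^ 2 :=
    pow_le_pow_left₀ (norm_nonneg _) h1 2
  rw [Real.sq_sqrt (by positivity)] at h3
  linarith

lemma norm_testy (J : ℕ) :
    ∑ i ∈ range J, (1 / 2 * ∑ n ∈ range (i + 1), alpha n) ^ 2 ≤ ‖testy 𝕜 J‖ ^ 2 := by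
  have h7 : ‖testy 𝕜 J‖ = ‖((testy 𝕜 J : V0 𝕜) : W2 𝕜)‖ := rfl
  rw [h7, WithLp.prod_norm_sq_eq_of_L2]
  have hbv : ∀ j, bv (fun m => if m ∈ (range (bs J)).filter Even then testc 𝕜 m else 0) j
      = if j < J then ((1 / 2 : ℝ) : 𝕜) else 0 := by
    intro j
    unfold bv
    by_cases hj : j < J
    · rw [if_pos hj]
      have h3 : ∀ n ∈ sig j, (-1 : 𝕜) ^ n *
            (if n ∈ (range (bs J)).filter Even then testc 𝕜 n else 0)
          = (((-1 : ℝ) ^ n * (if Even n then 1 else 0) : ℝ) : 𝕜) * ((2 : 𝕜) ^ (j + 1))⁻¹ := by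
        intro n hn
        have hmem : n ∈ range (bs J) := by
          rw [range_bs, mem_biUnion]; exact ⟨j, mem_range.mpr hj, hn⟩
        by_cases hev : Even n
        · rw [if_pos (mem_filter.mpr ⟨hmem, hev⟩), if_pos hev, testc_eq hn]
          push_cast
          ring
        · rw [if_neg (fun h => hev (mem_filter.mp h).2), if_neg hev]
          simp
      rw [sum_congr rfl h3, ← sum_mul, ← RCLike.ofReal_sum, sum_sig_even]
      push_cast
      rw [show (4 : 𝕜) = 2 * 2 by norm_num, mul_pow]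
      field_simp
    · rw [if_neg hj, sum_eq_zero, mul_zero]
      intro n hn
      have hmem : n ∉ (range (bs J)).filter Even := by
        intro h
        have h' := (mem_filter.mp h).1
        rw [range_bs, mem_biUnion] at h'
        obtain ⟨j', hj', hn'⟩ := h'
        have := sig_unique hn hn'
        rw [mem_range] at hj'
        omega
      simp only [if_neg hmem, mul_zero]
  have h1 : ∑ i ∈ range J, (1 / 2 * ∑ n ∈ range (i + 1), alpha n) ^ 2
      = ∑ i ∈ range J, ‖((testy 𝕜 J : V0 𝕜) : W2 𝕜).snd i‖ ^ 2 := by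
    apply sum_congr rfl
    intro i hi
    unfold testy
    rw [sum_eV_snd]
    have h2 : Lc alpha (bv (fun m => if m ∈ (range (bs J)).filter Even then testc 𝕜 m else 0)) i
        = ((1 / 2 * ∑ n ∈ range (i + 1), alpha n : ℝ) : 𝕜) := by
      unfold Lc
      have h3 : ∀ j ∈ range (i + 1), (alpha (i - j) : 𝕜) *
          bv (fun m => if m ∈ (range (bs J)).filter Even then testc 𝕜 m else 0) j
          = ((1 / 2 * alpha (i - j) : ℝ) : 𝕜) := by
        intro j hj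
        rw [hbv, if_pos (by rw [mem_range] at hi hj; omega)]
        push_cast
        ring
      rw [sum_congr rfl h3, ← RCLike.ofReal_sum, ← mul_sum]
      congr 2
      have := sum_range_reflect alpha (i + 1)
      rw [← this]
      apply sum_congr rfl
      intro j _
      congr 1
    rw [h2, RCLike.norm_ofReal, sq_abs]
  rw [h1]
  have := E2_sum_le ((testy 𝕜 J : V0 𝕜) : W2 𝕜).snd (range J)
  nlinarith [sq_nonneg ‖((testy 𝕜 J : V0 𝕜) : W2 𝕜).fst‖]

/-- The basis is conditional. -/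
theorem conditionalV (𝕜 : Type*) [RCLike 𝕜] :
    ∃ x : V0 𝕜, ¬ Summable (fun n => coordV n x • (eV n : V0 𝕜)) := by
  by_contra hcon
  push Not at hcon
  let b : UnconditionalSchauderBasis ℕ 𝕜 (V0 𝕜) :=
    { basis := eV
      coord := coordV
      ortho := (basisV 𝕜).ortho
      expansion := fun x => by
        obtain ⟨y, hy⟩ := hcon x
        have h1 : Tendsto (fun N => PV N x) atTop (𝓝 y) := hy.tendsto_sum_nat
        have h2 : y = x := tendsto_nhds_unique h1 (tendsto_PV x)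
        rw [h2] at hy
        exact hy }
  obtain ⟨C, hC⟩ := b.exists_norm_proj_le
  have hC0 : 0 ≤ C := (ContinuousLinearMap.opNorm_nonneg _).trans (hC ∅)
  -- choose `N₀` with large partial sums
  obtain ⟨N₀, hN₀⟩ := alpha_div (4 * C + 1)
  set J := 2 * N₀ + 2 with hJ
  have h1 : ‖testy 𝕜 J‖ ≤ C * ‖testx 𝕜 J‖ := by
    have h2 : b.proj ((range (bs J)).filter Even) (testx 𝕜 J) = testy 𝕜 J := by
      rw [GeneralSchauderBasis.proj_apply]
      unfold testy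
      apply sum_congr rfl
      intro n hn
      congr 1
      change coordV n (testx 𝕜 J) = _
      rw [coordV_apply]
      unfold testx
      rw [sum_eV_fst, if_pos (mem_filter.mp hn).1]
    rw [← h2]
    exact (b.proj _).le_of_opNorm_le (hC _) _
  have h2 : ‖testy 𝕜 J‖ ^ 2 ≤ C ^ 2 * J := by
    calc ‖testy 𝕜 J‖ ^ 2 ≤ (C * ‖testx 𝕜 J‖) ^ 2 := pow_le_pow_left₀ (norm_nonneg _) h1 2
      _ = C ^ 2 * ‖testx 𝕜 J‖ ^ 2 := by ring
      _ ≤ C ^ 2 * J := by
          apply mul_le_mul_of_nonneg_left (norm_testx J) (by positivity)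
  have h3 := norm_testy (𝕜 := 𝕜) J
  -- lower bound
  have h4 : ((N₀ : ℝ) + 1) * (1 / 2 * (4 * C + 1)) ^ 2
      ≤ ∑ i ∈ range J, (1 / 2 * ∑ n ∈ range (i + 1), alpha n) ^ 2 := by
    have h5 : ∀ i ∈ Ico (N₀ + 1) J, (1 / 2 * (4 * C + 1)) ^ 2
        ≤ (1 / 2 * ∑ n ∈ range (i + 1), alpha n) ^ 2 := by
      intro i hi
      apply pow_le_pow_left₀ (by positivity)
      have h6 : ∑ n ∈ range N₀, alpha n ≤ ∑ n ∈ range (i + 1), alpha n := by
        apply sum_le_sum_of_subset_of_nonneg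
        · exact range_subset_range.mpr (by have := (mem_Ico.mp hi).1; omega)
        · intro n _ _; exact alpha_nonneg n
      linarith
    calc ((N₀ : ℝ) + 1) * (1 / 2 * (4 * C + 1)) ^ 2
        = ∑ i ∈ Ico (N₀ + 1) J, (1 / 2 * (4 * C + 1)) ^ 2 := by
          rw [sum_const, Nat.card_Ico, nsmul_eq_mul]
          congr 1
          have : J - (N₀ + 1) = N₀ + 1 := by omega
          rw [this]; push_cast; ring
      _ ≤ ∑ i ∈ Ico (N₀ + 1) J, (1 / 2 * ∑ n ∈ range (i + 1), alpha n) ^ 2 := sum_le_sum h5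
      _ ≤ _ := by
          apply sum_le_sum_of_subset_of_nonneg
          · intro i hi
            exact mem_range.mpr (mem_Ico.mp hi).2
          · intros; positivity
  have h5 : (J : ℝ) = 2 * (N₀ + 1) := by rw [hJ]; push_cast; ring
  rw [h5] at h2
  have h6 : ((N₀ : ℝ) + 1) * (1 / 2 * (4 * C + 1)) ^ 2 ≤ C ^ 2 * (2 * (N₀ + 1)) := by linarith
  have h7 : (0 : ℝ) < (N₀ : ℝ) + 1 := by positivity
  nlinarith [mul_pos h7 (show (0 : ℝ) < 2 * C ^ 2 + 2 * C + 1 / 4 by positivity)]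

end

end Pool.Agent.Work.MP_2eb999_an
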