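import Pool.Agent.Work.MP_2eb999_an.Bounds
import Pool.Agent.Work.MP_2eb999_an.Alpha

set_option autoImplicit false

namespace Pool.Agent.Work.MP_2eb999_an

open Finset Filter Topology

/-- A fixed sequence with the properties of `exists_alpha`. -/
noncomputable def alpha : ℕ → ℝ := exists_alpha.choose

lemma alpha_nonneg (n : ℕ) : 0 ≤ alpha n := exists_alpha.choose_spec.1 n

lemma alpha_bound : ∀ N, ∑ n ∈ range N, ((n : ℝ) + 1) * alpha n ^ 2 ≤ 1 / 16 :=
  exists_alpha.choose_spec.2.1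

lemma alpha_div : ∀ C : ℝ, ∃ N, C < ∑ n ∈ range N, alpha n := exists_alpha.choose_spec.2.2

section
variable (𝕜 : Type*) [RCLike 𝕜]

/-- The Hilbert space `ℓ₂`. -/
abbrev E2 := lp (fun _ : ℕ => 𝕜) 2

/-- The ambient Hilbert space `ℓ₂ ⊕₂ ℓ₂`. -/
abbrev W2 := WithLp 2 (E2 𝕜 × E2 𝕜)

variable {𝕜}

lemma memlp_of {f : ℕ → 𝕜} {C : ℝ} (h : ∀ I, ∑ i ∈ range I, ‖f i‖ ^ 2 ≤ C ^ 2) :
    Memℓp f 2 := by
  apply memℓp_gen' (C := C ^ 2)
  intro s
  obtain ⟨I, hI⟩ := s.exists_nat_subset_range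
  have h1 : ∀ i, ‖f i‖ ^ (2 : ENNReal).toReal = ‖f i‖ ^ 2 := fun i => by
    simp
  simp_rw [h1]
  exact (sum_le_sum_of_subset_of_nonneg hI (fun _ _ _ => by positivity)).trans (h I)

lemma E2_norm_le {x : E2 𝕜} {C : ℝ} (hC : 0 ≤ C) (h : ∀ I, ∑ i ∈ range I, ‖x i‖ ^ 2 ≤ C ^ 2) :
    ‖x‖ ≤ C := by
  apply lp.norm_le_of_forall_sum_le (by norm_num) hC
  intro s
  obtain ⟨I, hI⟩ := s.exists_nat_subset_range
  have h1 : ∀ i, ‖x i‖ ^ (2 : ENNReal).toReal = ‖x i‖ ^ 2 := fun i => by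
    simp
  simp_rw [h1]
  have h2 : C ^ (2 : ENNReal).toReal = C ^ 2 := by simp
  rw [h2]
  exact (sum_le_sum_of_subset_of_nonneg hI (fun _ _ _ => by positivity)).trans (h I)

lemma E2_sum_le (x : E2 𝕜) (s : Finset ℕ) : ∑ i ∈ s, ‖x i‖ ^ 2 ≤ ‖x‖ ^ 2 := by
  have h := lp.sum_rpow_le_norm_rpow (p := 2) (by norm_num) x s
  simpa using h

lemma E2_tendsto (x : E2 𝕜) : Tendsto (fun n => ‖x n‖) atTop (𝓝 0) := by
  have h := (lp.memℓp x).summable (by norm_num)
  have h2 := h.tendsto_atTop_zero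
  have h3 : Tendsto (fun n => ‖x n‖ ^ 2) atTop (𝓝 0) := by
    refine h2.congr (fun n => ?_)
    simp
  have h4 := h3.sqrt
  simp only [Real.sqrt_zero] at h4
  refine h4.congr (fun n => ?_)
  exact Real.sqrt_sq (norm_nonneg _)

lemma continuous_E2_eval (n : ℕ) : Continuous (fun x : E2 𝕜 => x n) :=
  (lp.evalCLM 𝕜 (fun _ : ℕ => 𝕜) 2 n).continuous

/-- The second component of the `n`-th vector. -/
noncomputable def PhiE (n : ℕ) : E2 𝕜 :=
  ⟨fun i => Lc alpha (bv (Pi.single n (1 : 𝕜))) i, by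
    obtain ⟨j, hj⟩ := exists_blk n
    apply memlp_of (C := 1 / 4 * ‖((2 : 𝕜) ^ (j + 1))⁻¹ * ((-1) ^ n * 1)‖)
    intro I
    rw [← Ln_sq, bv_single hj]
    have := Ln_single_le (𝕜 := 𝕜) alpha_bound I j (((2 : 𝕜) ^ (j + 1))⁻¹ * ((-1) ^ n * 1))
    exact pow_le_pow_left₀ (Ln_nonneg _ _ _) this 2⟩

lemma PhiE_apply (n i : ℕ) :
    (PhiE n : E2 𝕜) i = Lc alpha (bv (Pi.single n (1 : 𝕜))) i := rfl

/-- The vectors `e_n` in the ambient space. -/
noncomputable def eW (n : ℕ) : W2 𝕜 := WithLp.toLp 2 (lp.single 2 n (1 : 𝕜), PhiE n)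

/-- The closed span of the vectors `e_n`. -/
noncomputable def V0 (𝕜 : Type*) [RCLike 𝕜] : Submodule 𝕜 (W2 𝕜) :=
  (Submodule.span 𝕜 (Set.range (eW (𝕜 := 𝕜)))).topologicalClosure

instance : CompleteSpace (V0 𝕜) := Submodule.topologicalClosure.completeSpace _

lemma Lc_bv_sum (s : Finset ℕ) (c : ℕ → 𝕜) (i : ℕ) :
    ∑ n ∈ s, c n * Lc alpha (bv (Pi.single n (1 : 𝕜))) i
      = Lc alpha (bv (∑ n ∈ s, Pi.single n (c n) : ℕ → 𝕜)) i := by
  classical
  induction s using Finset.induction_on with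
  | empty =>
    have h0 : bv (0 : ℕ → 𝕜) = (0 : 𝕜) • (0 : ℕ → 𝕜) := by
      funext j
      have := bv_smul (0 : 𝕜) (0 : ℕ → 𝕜) j
      simpa using this
    simp only [sum_empty, h0]
    rw [Lc_smul, zero_mul]
  | insert n s hn ih =>
    rw [sum_insert hn, sum_insert hn, ih]
    have h1 : (Pi.single n (c n) : ℕ → 𝕜) = c n • Pi.single n (1 : 𝕜) := by
      funext m
      by_cases h : m = n
      · subst h; simp
      · simp [Pi.single_eq_of_ne h]
    have h2 : bv (Pi.single n (c n) + ∑ n ∈ s, Pi.single n (c n) : ℕ → 𝕜)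
        = c n • bv (Pi.single n (1 : 𝕜)) + bv (∑ n ∈ s, Pi.single n (c n) : ℕ → 𝕜) := by
      funext j
      rw [bv_add, h1, bv_smul, Pi.add_apply, Pi.smul_apply, smul_eq_mul]
    rw [h2, Lc_add, Lc_smul]

/-- Elements of `V0` lie on the graph of the operator. -/
lemma V0_graph {x : W2 𝕜} (hx : x ∈ V0 𝕜) (i : ℕ) : x.snd i = Lc alpha (bv ⇑x.fst) i := by
  let S : Submodule 𝕜 (W2 𝕜) :=
    { carrier := {x | ∀ i, x.snd i = Lc alpha (bv ⇑x.fst) i}
      add_mem' := by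
        intro x y hx hy i
        have hx' := hx i
        have hy' := hy i
        rw [WithLp.add_snd, WithLp.add_fst, lp.coeFn_add, Pi.add_apply, hx', hy', ← Lc_add]
        congr 1
        funext j
        rw [Pi.add_apply, lp.coeFn_add, bv_add]
      zero_mem' := by
        intro i
        have h0 : bv (⇑(0 : W2 𝕜).fst : ℕ → 𝕜) = (0 : 𝕜) • (0 : ℕ → 𝕜) := by
          funext j
          have e : (⇑(0 : W2 𝕜).fst : ℕ → 𝕜) = (0 : 𝕜) • (0 : ℕ → 𝕜) := by
            rw [zero_smul]; rfl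
          rw [e, bv_smul]
          simp
        rw [h0, Lc_smul, zero_mul]
        rfl
      smul_mem' := by
        intro c x hx i
        have hx' := hx i
        rw [WithLp.smul_snd, WithLp.smul_fst, lp.coeFn_smul, Pi.smul_apply, hx', smul_eq_mul,
          ← Lc_smul]
        congr 1
        funext j
        rw [Pi.smul_apply, lp.coeFn_smul, bv_smul, smul_eq_mul] }
  have hclosed : IsClosed (S : Set (W2 𝕜)) := by
    have : (S : Set (W2 𝕜)) = ⋂ i, {x : W2 𝕜 | x.snd i = Lc alpha (bv ⇑x.fst) i} := by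
      ext x
      simp [S]
    rw [this]
    apply isClosed_iInter
    intro i
    have hf : Continuous (fun x : W2 𝕜 => x.fst) := (WithLp.fstL 2 𝕜 (E2 𝕜) (E2 𝕜)).continuous
    have hs : Continuous (fun x : W2 𝕜 => x.snd) := (WithLp.sndL 2 𝕜 (E2 𝕜) (E2 𝕜)).continuous
    apply isClosed_eq
    · exact (continuous_E2_eval i).comp hs
    · unfold Lc bv
      apply continuous_finsetSum
      intro j _
      apply Continuous.mul continuous_const
      apply Continuous.mul continuous_const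
      apply continuous_finsetSum
      intro n _
      exact continuous_const.mul ((continuous_E2_eval n).comp hf)
  have hle : V0 𝕜 ≤ S := by
    apply Submodule.topologicalClosure_minimal _ _ hclosed
    rw [Submodule.span_le]
    rintro _ ⟨n, rfl⟩ i
    change (PhiE n : E2 𝕜) i = _
    rw [PhiE_apply]
    congr 2
  exact hle hx i

lemma eW_mem (n : ℕ) : eW n ∈ V0 𝕜 :=
  Submodule.le_topologicalClosure _ (Submodule.subset_span ⟨n, rfl⟩)

/-- The vectors `e_n` in `V0`. -/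
noncomputable def eV (n : ℕ) : V0 𝕜 := ⟨eW n, eW_mem n⟩

/-- The coordinate functionals. -/
noncomputable def coordV (n : ℕ) : StrongDual 𝕜 (V0 𝕜) :=
  (lp.evalCLM 𝕜 (fun _ : ℕ => 𝕜) 2 n).comp
    ((WithLp.fstL 2 𝕜 (E2 𝕜) (E2 𝕜)).comp (V0 𝕜).subtypeL)

lemma coordV_apply (n : ℕ) (x : V0 𝕜) : coordV n x = (x : W2 𝕜).fst n := rfl

lemma Ln_le_snd (x : V0 𝕜) (I : ℕ) : Ln alpha I (bv ⇑(x : W2 𝕜).fst) ≤ ‖(x : W2 𝕜).snd‖ := by
  apply le_of_sq_le_sq _ (norm_nonneg _)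
  rw [Ln_sq]
  calc ∑ i ∈ range I, ‖Lc alpha (bv ⇑(x : W2 𝕜).fst) i‖ ^ 2
      = ∑ i ∈ range I, ‖(x : W2 𝕜).snd i‖ ^ 2 := by
        apply sum_congr rfl
        intro i _
        rw [V0_graph x.2]
    _ ≤ _ := E2_sum_le _ _

lemma fst_le (x : W2 𝕜) : ‖x.fst‖ ≤ ‖x‖ := by
  apply le_of_sq_le_sq _ (norm_nonneg _)
  rw [WithLp.prod_norm_sq_eq_of_L2]
  nlinarith [sq_nonneg ‖x.snd‖]

lemma snd_le (x : W2 𝕜) : ‖x.snd‖ ≤ ‖x‖ := by
  apply le_of_sq_le_sq _ (norm_nonneg _)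
  rw [WithLp.prod_norm_sq_eq_of_L2]
  nlinarith [sq_nonneg ‖x.fst‖]

lemma norm_W_le (x : W2 𝕜) : ‖x‖ ≤ ‖x.fst‖ + ‖x.snd‖ := by
  apply le_of_sq_le_sq _ (by positivity)
  rw [WithLp.prod_norm_sq_eq_of_L2]
  nlinarith [mul_nonneg (norm_nonneg x.fst) (norm_nonneg x.snd)]

/-- Finite linear combinations. -/
lemma sum_eV_fst (s : Finset ℕ) (c : ℕ → 𝕜) (m : ℕ) :
    ((∑ n ∈ s, c n • eV n : V0 𝕜) : W2 𝕜).fst m = if m ∈ s then c m else 0 := by
  have h := coordV_apply m (∑ n ∈ s, c n • eV n : V0 𝕜)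
  rw [← h, map_sum]
  simp_rw [map_smul]
  have h1 : ∀ n, coordV m (eV n : V0 𝕜) = if n = m then (1 : 𝕜) else 0 := by
    intro n
    rw [coordV_apply]
    change (lp.single 2 n (1 : 𝕜) : E2 𝕜) m = _
    rw [lp.coeFn_single]
    by_cases hnm : n = m
    · subst hnm; simp
    · rw [if_neg hnm, Pi.single_eq_of_ne (Ne.symm hnm)]
  simp_rw [h1]
  simp

lemma sum_single_eq (s : Finset ℕ) (c : ℕ → 𝕜) :
    (∑ n ∈ s, Pi.single n (c n) : ℕ → 𝕜) = fun m => if m ∈ s then c m else 0 := by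
  classical
  funext m
  rw [Finset.sum_apply]
  by_cases hm : m ∈ s
  · rw [if_pos hm, sum_eq_single m]
    · simp
    · intro b _ hb; rw [Pi.single_eq_of_ne hb.symm]
    · intro h; exact absurd hm h
  · rw [if_neg hm]
    apply sum_eq_zero
    intro b hb
    rw [Pi.single_eq_of_ne]
    rintro rfl; exact hm hb

lemma sum_eV_snd (s : Finset ℕ) (c : ℕ → 𝕜) (i : ℕ) :
    ((∑ n ∈ s, c n • eV n : V0 𝕜) : W2 𝕜).snd i
      = Lc alpha (bv (fun m => if m ∈ s then c m else 0)) i := by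
  rw [V0_graph (Subtype.mem _)]
  congr 2
  funext m
  rw [sum_eV_fst]

/-- Partial sum operators. -/
noncomputable def PV (N : ℕ) (x : V0 𝕜) : V0 𝕜 := ∑ n ∈ range N, coordV n x • eV n

lemma PV_bound (N : ℕ) (x : V0 𝕜) : ‖PV N x‖ ≤ 4 * ‖x‖ := by
  set a : ℕ → 𝕜 := ⇑(x : W2 𝕜).fst with ha
  have h1 : ‖((PV N x : V0 𝕜) : W2 𝕜).fst‖ ≤ ‖(x : W2 𝕜).fst‖ := by
    apply E2_norm_le (norm_nonneg _)
    intro I
    refine (sum_le_sum ?_).trans (E2_sum_le _ (range I))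
    intro n _
    unfold PV
    rw [sum_eV_fst]
    split_ifs
    · rw [coordV_apply]
    · simp
  have h2 : ‖((PV N x : V0 𝕜) : W2 𝕜).snd‖ ≤ 2 * ‖(x : W2 𝕜).snd‖ + 1 / 2 * ‖(x : W2 𝕜).fst‖ := by
    apply E2_norm_le (by positivity)
    intro I
    have h3 : ∑ i ∈ range I, ‖((PV N x : V0 𝕜) : W2 𝕜).snd i‖ ^ 2
        = Ln alpha I (bv (trunc N a)) ^ 2 := by
      rw [Ln_sq]
      apply sum_congr rfl
      intro i _
      unfold PV
      rw [sum_eV_snd]
      congr 3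
      congr 1
      funext m
      unfold trunc
      simp only [mem_range]
      rfl
    rw [h3]
    apply pow_le_pow_left₀ (Ln_nonneg _ _ _)
    exact Ln_trunc_le alpha_bound I N a (norm_nonneg _) (fun s => E2_sum_le _ s) (Ln_le_snd x I)
  have h3 := norm_W_le ((PV N x : V0 𝕜) : W2 𝕜)
  have h4 := fst_le (x : W2 𝕜)
  have h5 := snd_le (x : W2 𝕜)
  have h6 : ‖PV N x‖ = ‖((PV N x : V0 𝕜) : W2 𝕜)‖ := rfl
  have h7 : ‖x‖ = ‖(x : W2 𝕜)‖ := rfl
  rw [h6, h7]
  linarith [norm_nonneg (x : W2 𝕜)]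

lemma PV_add (N : ℕ) (x y : V0 𝕜) : PV N (x + y) = PV N x + PV N y := by
  unfold PV
  rw [← sum_add_distrib]
  apply sum_congr rfl
  intro n _
  rw [map_add, add_smul]

lemma PV_sub (N : ℕ) (x y : V0 𝕜) : PV N (x - y) = PV N x - PV N y := by
  unfold PV
  rw [← sum_sub_distrib]
  apply sum_congr rfl
  intro n _
  rw [map_sub, sub_smul]

lemma PV_smul (N : ℕ) (c : 𝕜) (x : V0 𝕜) : PV N (c • x) = c • PV N x := by
  unfold PV
  rw [smul_sum]
  apply sum_congr rfl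
  intro n _
  rw [map_smul, smul_eq_mul, mul_smul]

lemma coordV_eV (m n : ℕ) : coordV m (eV n : V0 𝕜) = if n = m then (1 : 𝕜) else 0 := by
  rw [coordV_apply]
  change (lp.single 2 n (1 : 𝕜) : E2 𝕜) m = _
  rw [lp.coeFn_single]
  by_cases hnm : n = m
  · subst hnm; simp
  · rw [if_neg hnm, Pi.single_eq_of_ne (Ne.symm hnm)]

lemma dense_span_eV : (Submodule.span 𝕜 (Set.range (eV (𝕜 := 𝕜)))).topologicalClosure = ⊤ := by
  rw [Submodule.eq_top_iff']
  intro x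
  rw [← SetLike.mem_coe, Submodule.topologicalClosure_coe, Metric.mem_closure_iff]
  intro ε hε
  have hx : (x : W2 𝕜) ∈ (V0 𝕜 : Set (W2 𝕜)) := x.2
  unfold V0 at hx
  rw [Submodule.topologicalClosure_coe, Metric.mem_closure_iff] at hx
  obtain ⟨y, hy, hxy⟩ := hx ε hε
  have hyV : y ∈ V0 𝕜 := Submodule.le_topologicalClosure _ hy
  refine ⟨⟨y, hyV⟩, ?_, hxy⟩
  have hmap : Submodule.map (V0 𝕜).subtype (Submodule.span 𝕜 (Set.range (eV (𝕜 := 𝕜))))
      = Submodule.span 𝕜 (Set.range (eW (𝕜 := 𝕜))) := by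
    rw [Submodule.map_span, ← Set.range_comp]
    rfl
  rw [SetLike.mem_coe, ← hmap, Submodule.mem_map] at hy
  obtain ⟨z, hz, hzy⟩ := hy
  have : z = ⟨y, hyV⟩ := Subtype.ext hzy
  rw [← this]
  exact hz

lemma tendsto_PV (x : V0 𝕜) : Tendsto (fun N => PV N x) atTop (𝓝 x) := by
  -- on the span
  have hspan : ∀ y ∈ Submodule.span 𝕜 (Set.range (eV (𝕜 := 𝕜))),
      ∀ᶠ N in atTop, PV N y = y := by
    intro y hy
    induction hy using Submodule.span_induction with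
    | mem y hy =>
      obtain ⟨n, rfl⟩ := hy
      filter_upwards [eventually_gt_atTop n] with N hN
      unfold PV
      rw [sum_eq_single n]
      · rw [coordV_eV, if_pos rfl, one_smul]
      · intro m _ hm
        rw [coordV_eV, if_neg (Ne.symm hm), zero_smul]
      · intro h; exact absurd (mem_range.mpr hN) h
    | zero =>
      refine Eventually.of_forall (fun N => ?_)
      have := PV_smul N (0 : 𝕜) (0 : V0 𝕜)
      simpa using this
    | add y z _ _ hy hz =>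
      filter_upwards [hy, hz] with N h1 h2
      rw [PV_add, h1, h2]
    | smul c y _ hy =>
      filter_upwards [hy] with N h1
      rw [PV_smul, h1]
  rw [Metric.tendsto_atTop]
  intro ε hε
  have hx : x ∈ closure (Submodule.span 𝕜 (Set.range (eV (𝕜 := 𝕜))) : Set (V0 𝕜)) := by
    rw [← Submodule.topologicalClosure_coe, dense_span_eV]; trivial
  rw [Metric.mem_closure_iff] at hx
  obtain ⟨y, hy, hxy⟩ := hx (ε / 6) (by positivity)
  obtain ⟨N₀, hN₀⟩ := eventually_atTop.1 (hspan y hy)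
  refine ⟨N₀, fun N hN => ?_⟩
  rw [dist_eq_norm] at hxy ⊢
  have h1 : PV N x - x = PV N (x - y) - (x - y) := by
    rw [PV_sub, hN₀ N hN]; abel
  rw [h1]
  calc ‖PV N (x - y) - (x - y)‖ ≤ ‖PV N (x - y)‖ + ‖x - y‖ := norm_sub_le _ _
    _ ≤ 4 * ‖x - y‖ + ‖x - y‖ := by linarith [PV_bound N (x - y)]
    _ < ε := by linarith

/-- The Schauder basis of `V0`. -/
noncomputable def basisV (𝕜 : Type*) [RCLike 𝕜] : SchauderBasis 𝕜 (V0 𝕜) where
  basis := eV
  coord := coordV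
  ortho i j := by
    classical
    rw [coordV_eV]
    simp only [Pi.single_apply, eq_comm]
    split_ifs <;> rfl
  expansion x := by
    rw [HasSum, SummationFilter.conditional_filter_eq_map_range, tendsto_map'_iff]
    exact tendsto_PV x

end

end Pool.Agent.Work.MP_2eb999_an
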